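import Pool.Agent.X156.ZG.Pol

/-!
# Averaging over subgroups of prime order
-/

set_option autoImplicit false

namespace Pool.Agent.X156.ZG

open NumberField

section

variable {F : Type} [Field F] {A : Type} [Group A] [MulSemiringAction A F]

/-- the automorphism of `F` given by `a` -/
noncomputable abbrev act (F : Type) [Field F] {A : Type} [Group A] [MulSemiringAction A F] (a : A) : F →+* F :=
  MulSemiringAction.toRingHom A F a

theorem act_mul (σ : F →+* ℂ) (a b : A) : (σ.comp (act F a)).comp (act F b) = σ.comp (act F (a * b)) := by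
  ext x
  simp [mul_smul]

theorem act_one (σ : F →+* ℂ) : σ.comp (act F (1 : A)) = σ := by
  ext x
  simp

open Classical in
/-- the sum over the subgroup `P` -/
noncomputable def nrm [Fintype A] (P : Subgroup A) (f : (F →+* ℂ) → ℝ) (σ : F →+* ℂ) : ℝ :=
  ∑ a : A, if a ∈ P then f (σ.comp (act F a)) else 0

variable [Fintype A]

theorem nrm_mem_W {n : ℕ} {f : (F →+* ℂ) → ℝ} (hf : f ∈ W n F) (P : Subgroup A) : nrm P f ∈ W n F := by
  intro σ
  unfold nrm
  rw [Finset.mul_sum]
  refine Finset.sum_congr rfl fun a _ => ?_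
  split_ifs with h
  · exact hf (σ.comp (act F a))
  · simp

theorem nrm_inv (P : Subgroup A) (f : (F →+* ℂ) → ℝ) {b : A} (hb : b ∈ P) (σ : F →+* ℂ) :
    nrm P f (σ.comp (act F b)) = nrm P f σ := by
  classical
  unfold nrm
  refine Fintype.sum_equiv (Equiv.mulLeft b) _ _ fun a => ?_
  simp only [Equiv.coe_mulLeft]
  rw [act_mul]
  congr 1
  exact propext (P.mul_mem_cancel_left hb).symm

/-- the subgroups of prime order -/
noncomputable def primeSubs (A : Type) [Group A] [Fintype A] : Finset (Subgroup A) := by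
  classical
  exact Finset.univ.filter fun P : Subgroup A => (Nat.card P).Prime

theorem mem_primeSubs {P : Subgroup A} : P ∈ primeSubs A ↔ (Nat.card P).Prime := by
  classical
  simp [primeSubs]

theorem eq_zpowers {P : Subgroup A} (hP : (Nat.card P).Prime) {a : A} (ha : a ∈ P) (h1 : a ≠ 1) :
    P = Subgroup.zpowers a := by
  have h2 : Subgroup.zpowers a ≤ P := Subgroup.zpowers_le.2 ha
  have h3 : Nat.card (Subgroup.zpowers a) ∣ Nat.card P := Subgroup.card_dvd_of_le h2
  rcases (Nat.dvd_prime hP).1 h3 with h4 | h4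
  · exfalso
    have : Subgroup.zpowers a = ⊥ := Subgroup.card_eq_one.1 h4
    exact h1 (Subgroup.zpowers_eq_bot.1 this)
  · exact (Subgroup.eq_of_le_of_card_ge h2 h4.ge).symm

open Classical in
/-- the number of subgroups of prime order which contain `a` -/
theorem card_containing (hA : ∀ a : A, a ≠ 1 → (orderOf a).Prime) (a : A) :
    ((primeSubs A).filter fun P => a ∈ P).card = if a = 1 then (primeSubs A).card else 1 := by
  split_ifs with h
  · subst h
    congr 1
    refine Finset.filter_true_of_mem fun P _ => P.one_mem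
  · rw [Finset.card_eq_one]
    refine ⟨Subgroup.zpowers a, ?_⟩
    ext P
    simp only [Finset.mem_filter, Finset.mem_singleton, mem_primeSubs]
    constructor
    · rintro ⟨h1, h2⟩
      exact eq_zpowers h1 h2 h
    · rintro rfl
      exact ⟨by rw [Nat.card_zpowers]; exact hA a h, Subgroup.mem_zpowers a⟩

theorem sum_nrm (hA : ∀ a : A, a ≠ 1 → (orderOf a).Prime) (f : (F →+* ℂ) → ℝ) (σ : F →+* ℂ) :
    ∑ P ∈ primeSubs A, nrm P f σ = nrm (⊤ : Subgroup A) f σ + ((primeSubs A).card - 1) * f σ := by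
  classical
  unfold nrm
  rw [Finset.sum_comm]
  have e : ∀ a : A, (∑ P ∈ primeSubs A, if a ∈ P then f (σ.comp (act F a)) else 0) =
      (if a ∈ (⊤ : Subgroup A) then f (σ.comp (act F a)) else 0) +
        if a = 1 then ((primeSubs A).card - 1 : ℝ) * f (σ.comp (act F a)) else 0 := by
    intro a
    rw [← Finset.sum_filter, Finset.sum_const, card_containing hA a, nsmul_eq_mul]
    by_cases h : a = 1
    · simp only [h, if_true, Subgroup.mem_top]
      ring
    · simp [h]
  simp only [e]
  rw [Finset.sum_add_distrib]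
  congr 1
  rw [Finset.sum_ite_eq' Finset.univ (1 : A)]
  simp only [Finset.mem_univ, if_true]
  rw [act_one]

theorem two_le_card [Nontrivial A] (hprime : ¬(Nat.card A).Prime)
    (hA : ∀ a : A, a ≠ 1 → (orderOf a).Prime) : 1 < (primeSubs A).card := by
  classical
  obtain ⟨a, ha⟩ := exists_ne (1 : A)
  have hPa : (Nat.card (Subgroup.zpowers a)).Prime := by
    rw [Nat.card_zpowers]
    exact hA a ha
  have hne : Subgroup.zpowers a ≠ ⊤ := by
    intro h
    rw [h, Subgroup.card_top] at hPa
    exact hprime hPa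
  obtain ⟨b, hb⟩ : ∃ b, b ∉ Subgroup.zpowers a := by
    by_contra hcon
    push Not at hcon
    exact hne ((Subgroup.eq_top_iff' _).2 hcon)
  have hb1 : b ≠ 1 := by
    rintro rfl
    exact hb (Subgroup.one_mem _)
  rw [Finset.one_lt_card]
  refine ⟨Subgroup.zpowers a, mem_primeSubs.2 hPa, Subgroup.zpowers b, mem_primeSubs.2 ?_, ?_⟩
  · rw [Nat.card_zpowers]
    exact hA b hb1
  · intro h
    rw [h] at hb
    exact hb (Subgroup.mem_zpowers b)

/-- **descent**: invariant functions -/
theorem inv_mem_regSpan {n : ℕ} (hn : 1 ≤ n) [NumberField F] (P : Subgroup A)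
    (hP : RegSpan n (FixedPoints.subfield P F) = W n (FixedPoints.subfield P F))
    {f : (F →+* ℂ) → ℝ} (hf : f ∈ W n F) (hinv : ∀ a ∈ P, ∀ σ : F →+* ℂ, f (σ.comp (act F a)) = f σ) :
    f ∈ RegSpan n F := by
  classical
  set k := FixedPoints.subfield P F with hk
  let ι : k →+* F := algebraMap k F
  have : Algebra.IsAlgebraic k F := inferInstance
  -- `f` only depends on the restriction to `k`
  have hdep : ∀ σ σ' : F →+* ℂ, σ.comp ι = σ'.comp ι → f σ = f σ' := by
    intro σ σ' h
    have : IsGalois k F := {}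
    obtain ⟨s, hs⟩ := ComplexEmbedding.exists_comp_symm_eq_of_comp_eq (k := k) σ σ' h
    obtain ⟨a, ha⟩ := FixedPoints.toAlgAut_surjective P F s.symm
    have e : σ' = σ.comp (act F (a : A)) := by
      rw [← hs]
      ext x
      have h2 : s.symm x = (a : A) • x := by
        rw [← ha]
        rfl
      simp only [RingHom.comp_apply]
      change σ (s.symm x) = σ ((a : A) • x)
      rw [h2]
    rw [e, hinv a a.2]
  have hext : ∀ τ : k →+* ℂ, ∃ σ : F →+* ℂ, σ.comp ι = τ := by
    intro τ
    let := τ.toAlgebra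
    let L : F →ₐ[k] ℂ := IsAlgClosed.lift
    refine ⟨L.toRingHom, ?_⟩
    ext x
    exact L.commutes x
  choose ext hextτ using hext
  let g : (k →+* ℂ) → ℝ := fun τ => f (ext τ)
  have hg : ∀ σ : F →+* ℂ, f σ = g (σ.comp ι) := fun σ => hdep _ _ (hextτ _).symm
  have hgW : g ∈ W n k := by
    intro τ
    have h1 : (ComplexEmbedding.conjugate (ext τ)).comp ι = ComplexEmbedding.conjugate τ := by
      have h3 : (ComplexEmbedding.conjugate (ext τ)).comp ι =
          ComplexEmbedding.conjugate ((ext τ).comp ι) := rfl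
      rw [h3, hextτ]
    have h2 : g (ComplexEmbedding.conjugate τ) = f (ComplexEmbedding.conjugate (ext τ)) :=
      hdep _ _ (by rw [hextτ, h1])
    rw [h2]
    exact hf (ext τ)
  rw [← hP] at hgW
  -- pull back
  let pull : ((k →+* ℂ) → ℝ) →ₗ[ℝ] ((F →+* ℂ) → ℝ) := LinearMap.funLeft ℝ ℝ fun σ : F →+* ℂ => σ.comp ι
  have h1 : pull g ∈ (RegSpan n k).map pull := Submodule.mem_map_of_mem hgW
  have h2 : (RegSpan n k).map pull ≤ RegSpan n F := by
    unfold RegSpan
    rw [Submodule.map_span, Submodule.span_le]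
    rintro _ ⟨_, ⟨y, hy, rfl⟩, rfl⟩
    refine Submodule.subset_span ⟨zmap ι y, kerDelta_map n ι hy, ?_⟩
    funext σ
    exact (reg_zmap n ι y σ).symm
  have h3 : pull g = f := by
    funext σ
    exact (hg σ).symm
  rw [← h3]
  exact h2 h1

/-- **the main step** -/
theorem W_le_of_prime {n : ℕ} (hn : 1 ≤ n) [NumberField F] [Nontrivial A] (hprime : ¬(Nat.card A).Prime)
    (hA : ∀ a : A, a ≠ 1 → (orderOf a).Prime)
    (h : ∀ P : Subgroup A, (Nat.card P).Prime →
      RegSpan n (FixedPoints.subfield P F) = W n (FixedPoints.subfield P F)) :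
    W n F ≤ RegSpan n F := by
  classical
  intro f hf
  have hc := two_le_card hprime hA
  have hc' : ((primeSubs A).card - 1 : ℝ) ≠ 0 := by
    have : (1 : ℝ) < (primeSubs A).card := by exact_mod_cast hc
    linarith
  have hP : ∀ P ∈ primeSubs A, nrm P f ∈ RegSpan n F := fun P hP =>
    inv_mem_regSpan hn P (h P (mem_primeSubs.1 hP)) (nrm_mem_W hf P) fun a ha σ => nrm_inv P f ha σ
  obtain ⟨P₀, hP₀⟩ : (primeSubs A).Nonempty := Finset.card_pos.1 (by omega)
  have hT : nrm (⊤ : Subgroup A) f ∈ RegSpan n F :=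
    inv_mem_regSpan hn P₀ (h P₀ (mem_primeSubs.1 hP₀)) (nrm_mem_W hf (⊤ : Subgroup A)) fun a _ σ =>
      nrm_inv (⊤ : Subgroup A) f (Subgroup.mem_top a) σ
  have e : f = ((primeSubs A).card - 1 : ℝ)⁻¹ • (∑ P ∈ primeSubs A, nrm P f - nrm (⊤ : Subgroup A) f) := by
    funext σ
    simp only [Pi.smul_apply, Pi.sub_apply, Finset.sum_apply, smul_eq_mul]
    rw [sum_nrm hA f σ]
    field_simp
    ring
  rw [e]
  exact Submodule.smul_mem _ _ (Submodule.sub_mem _ (Submodule.sum_mem _ hP) hT)

/-- **Reduction of Zagier's conjecture to the fixed fields of the subgroups of prime order** -/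
theorem zagier_reduction {n : ℕ} (hn : 1 ≤ n) [NumberField F] [Nontrivial A] (hprime : ¬(Nat.card A).Prime)
    (hA : ∀ a : A, a ≠ 1 → (orderOf a).Prime)
    (hB : ∀ (K : Type) [Field K] [NumberField K], BorelDeJeu n K)
    (h : ∀ P : Subgroup A, (Nat.card P).Prime → Zagier n (FixedPoints.subfield P F)) : Zagier n F :=
  zagier_of_span hn (hB F) (W_le_of_prime hn hprime hA fun P hP =>
    (zagier_iff hn (hB _)).1 (h P hP))

end

end Pool.Agent.X156.ZG
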