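import Pool.Agent.X156.ZG.Gen
import Pool.Agent.X156.ZG.Avg

/-!
# Characters
-/

set_option autoImplicit false

namespace Pool.Agent.X156.ZG

open NumberField

/-! ### finite commutative groups -/

section

variable {A : Type} [CommGroup A] [Fintype A]

noncomputable instance fintypeDual : Fintype (A →* ℂˣ) := by
  classical
  have : Finite (A →* ℂˣ) := by
    have h : 0 < Nat.card (A →* ℂˣ) := by
      rw [CommGroup.card_monoidHom_of_hasEnoughRootsOfUnity A ℂ]
      exact Nat.card_pos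
    exact (Nat.card_pos_iff.1 h).2
  exact Fintype.ofFinite _

theorem sum_char {g : A} (hg : g ≠ 1) : ∑ χ : A →* ℂˣ, (χ g : ℂ) = 0 := by
  classical
  obtain ⟨ψ, hψ⟩ := CommGroup.exists_apply_ne_one_of_hasEnoughRootsOfUnity A ℂ hg
  have h1 : ∑ χ : A →* ℂˣ, (χ g : ℂ) = (ψ g : ℂ) * ∑ χ : A →* ℂˣ, (χ g : ℂ) := by
    rw [Finset.mul_sum]
    refine (Fintype.sum_equiv (Equiv.mulLeft ψ) _ _ fun χ => ?_).symm
    simp
  have h2 : (ψ g : ℂ) ≠ 1 := by
    intro h
    exact hψ (Units.ext h)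
  have h3 : (1 - (ψ g : ℂ)) * ∑ χ : A →* ℂˣ, (χ g : ℂ) = 0 := by
    rw [sub_mul, one_mul, ← h1, sub_self]
  rcases mul_eq_zero.1 h3 with h | h
  · exact absurd (sub_eq_zero.1 h).symm h2
  · exact h

/-- Fourier inversion -/
theorem inversion (f : A → ℂ) (h : A) :
    ∑ χ : A →* ℂˣ, (∑ g, (χ g : ℂ) * f g) * ((χ h : ℂ))⁻¹ = (Fintype.card (A →* ℂˣ) : ℂ) * f h := by
  classical
  have e1 : ∀ χ : A →* ℂˣ, (∑ g, (χ g : ℂ) * f g) * ((χ h : ℂ))⁻¹ = ∑ g, (χ (g * h⁻¹) : ℂ) * f g := by
    intro χ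
    rw [Finset.sum_mul]
    refine Finset.sum_congr rfl fun g _ => ?_
    rw [map_mul, map_inv, Units.val_mul, Units.val_inv_eq_inv_val]
    ring
  simp only [e1]
  rw [Finset.sum_comm]
  rw [Finset.sum_eq_single h]
  · rw [mul_inv_cancel]
    simp
  · intro g _ hg
    rw [← Finset.sum_mul, sum_char (mul_inv_eq_one.not.2 hg), zero_mul]
  · intro h0
    exact absurd (Finset.mem_univ h) h0

/-- rational relations are stable under `χ ↦ χ^a`, `a` prime to the order of the group -/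
theorem pow_relation (C : A → ℚ) (χ : A →* ℂˣ) {a : ℕ} (ha : a.Coprime (Fintype.card A))
    (h : ∑ g, (χ g : ℂ) * (C g : ℂ) = 0) : ∑ g, ((χ g : ℂ)) ^ a * (C g : ℂ) = 0 := by
  classical
  set N := Fintype.card A with hN
  have hN0 : 0 < N := Fintype.card_pos
  have : NeZero N := ⟨hN0.ne'⟩
  obtain ⟨ζ, hζ⟩ : ∃ ζ : ℂ, IsPrimitiveRoot ζ N := ⟨_, Complex.isPrimitiveRoot_exp N hN0.ne'⟩
  have hk : ∀ g : A, ∃ k : ℕ, ζ ^ k = (χ g : ℂ) := by
    intro g
    have h1 : ((χ g : ℂ)) ^ N = 1 := by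
      have h2 : (χ g) ^ N = 1 := by
        rw [← map_pow, hN, pow_card_eq_one, map_one]
      rw [← Units.val_pow_eq_pow_val, h2, Units.val_one]
    obtain ⟨k, _, hk⟩ := hζ.eq_pow_of_pow_eq_one h1
    exact ⟨k, hk⟩
  choose k hk using hk
  let P : Polynomial ℚ := ∑ g, Polynomial.C (C g) * Polynomial.X ^ k g
  have hP : ∀ z : ℂ, Polynomial.aeval z P = ∑ g, z ^ k g * (C g : ℂ) := by
    intro z
    simp only [P, map_sum, map_mul, map_pow, Polynomial.aeval_C, Polynomial.aeval_X]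
    refine Finset.sum_congr rfl fun g _ => ?_
    rw [mul_comm]
    rfl
  have h0 : Polynomial.aeval ζ P = 0 := by
    rw [hP]
    simpa only [hk] using h
  have h1 : minpoly ℚ ζ ∣ P := minpoly.dvd ℚ ζ h0
  have h2 : minpoly ℚ (ζ ^ a) = minpoly ℚ ζ := by
    rw [← Polynomial.cyclotomic_eq_minpoly_rat hζ hN0,
      ← Polynomial.cyclotomic_eq_minpoly_rat (hζ.pow_of_coprime a ha) hN0]
  have h3 : Polynomial.aeval (ζ ^ a) P = 0 := by
    obtain ⟨Q, hQ⟩ := h1
    rw [hQ, map_mul, ← h2, minpoly.aeval, zero_mul]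
  rw [hP] at h3
  refine Eq.trans (Finset.sum_congr rfl fun g _ => ?_) h3
  rw [← hk g, ← pow_mul, ← pow_mul, mul_comm (k g) a]

end

/-! ### fields -/

section

variable {F : Type} [Field F] [NumberField F] {A : Type} [CommGroup A] [Fintype A] [MulSemiringAction A F]

/-- `∑_a χ(a) 𝓛̃_n(σ₀(a(y)))` -/
noncomputable def R (n : ℕ) (σ₀ : F →+* ℂ) (y : ZP F) (χ : A →* ℂˣ) : ℂ :=
  ∑ a : A, (χ a : ℂ) * reg n (zmap (act F a) y) σ₀

omit [NumberField F] in
theorem R_shift (n : ℕ) (σ₀ : F →+* ℂ) (y : ZP F) (χ : A →* ℂˣ) (h : A) :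
    ∑ a : A, (χ a : ℂ) * reg n (zmap (act F a) y) (σ₀.comp (act F h)) = ((χ h : ℂ))⁻¹ * R n σ₀ y χ := by
  unfold R
  rw [Finset.mul_sum]
  refine Fintype.sum_equiv (Equiv.mulLeft h) _ _ fun a => ?_
  rw [Equiv.coe_mulLeft, reg_zmap, reg_zmap, act_mul, map_mul, Units.val_mul]
  have : (χ h : ℂ) ≠ 0 := (χ h).ne_zero
  field_simp

variable (hsur : ∀ σ₀ σ : F →+* ℂ, ∃ a : A, σ₀.comp (act F a) = σ)
include hsur

/-- **conjugate characters** -/
theorem R_pow {n : ℕ} (hn : 1 ≤ n) (hB : BorelDeJeu n F) {y : ZP F} (hy : y ∈ kerDelta n F) (σ₀ : F →+* ℂ)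
    (χ : A →* ℂˣ) {a : ℕ} (ha : a.Coprime (Fintype.card A)) (h : R n σ₀ y χ = 0) :
    R n σ₀ y (χ ^ a) = 0 := by
  classical
  obtain ⟨v, hv, -, hrat⟩ := hB
  have hc : ∀ b : A, ∃ c : J n F → ℚ, ∀ w : J n F, reg n (zmap (act F b) y) w.1.embedding =
      ∑ i, (c i : ℝ) * v i w := fun b => hrat _ (kerDelta_map n (act F b) hy)
  choose C hC using hc
  -- the relation for `χ`
  have hzero : ∀ w : J n F, ∑ b : A, (χ b : ℂ) * reg n (zmap (act F b) y) w.1.embedding = 0 := by
    intro w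
    obtain ⟨g, hg⟩ := hsur σ₀ w.1.embedding
    rw [← hg, R_shift, h, mul_zero]
  have hvC : (Matrix.of fun i w : J n F => ((v i w : ℝ) : ℂ)).det ≠ 0 := by
    have : (Matrix.of fun i w : J n F => ((v i w : ℝ) : ℂ)) = (Matrix.of v).map (algebraMap ℝ ℂ) := by
      ext i w
      rfl
    rw [this]
    have h2 := (algebraMap ℝ ℂ).map_det (Matrix.of v)
    rw [RingHom.mapMatrix_apply] at h2
    rw [← h2]
    exact (map_ne_zero _).2 hv
  have hrel : ∀ i : J n F, ∑ b : A, (χ b : ℂ) * ((C b i : ℚ) : ℂ) = 0 := by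
    have h1 : Matrix.vecMul (fun i : J n F => ∑ b : A, (χ b : ℂ) * ((C b i : ℚ) : ℂ))
        (Matrix.of fun i w : J n F => ((v i w : ℝ) : ℂ)) = 0 := by
      funext w
      simp only [Matrix.vecMul, dotProduct, Matrix.of_apply, Pi.zero_apply]
      rw [← hzero w]
      simp only [hC, Finset.sum_mul, Complex.ofReal_sum, Complex.ofReal_mul, Complex.ofReal_ratCast,
        Finset.mul_sum]
      rw [Finset.sum_comm]
      refine Finset.sum_congr rfl fun b _ => Finset.sum_congr rfl fun i _ => ?_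
      ring
    have h2 := Matrix.eq_zero_of_vecMul_eq_zero hvC h1
    exact fun i => congrFun h2 i
  have hrel2 : ∀ i : J n F, ∑ b : A, ((χ b : ℂ)) ^ a * ((C b i : ℚ) : ℂ) = 0 := fun i =>
    pow_relation (fun b => C b i) χ ha (hrel i)
  have hzero2 : ∀ w : J n F, ∑ b : A, (((χ ^ a) b : ℂˣ) : ℂ) * reg n (zmap (act F b) y) w.1.embedding = 0 := by
    intro w
    simp only [hC, Complex.ofReal_sum, Complex.ofReal_mul, Complex.ofReal_ratCast, Finset.mul_sum,
      MonoidHom.pow_apply, Units.val_pow_eq_pow_val]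
    rw [Finset.sum_comm]
    refine Finset.sum_eq_zero fun i _ => ?_
    have h1 := congrArg (fun z => z * ((v i w : ℝ) : ℂ)) (hrel2 i)
    simp only [zero_mul, Finset.sum_mul] at h1
    rw [← h1]
    refine Finset.sum_congr rfl fun b _ => ?_
    ring
  -- real and imaginary parts vanish everywhere
  have hre : (fun σ : F →+* ℂ => ∑ b : A, (((χ ^ a) b : ℂˣ) : ℂ).re * reg n (zmap (act F b) y) σ) = 0 := by
    refine W_inj hn ?_ (zero_mem _) fun w => ?_
    · have e : (fun σ : F →+* ℂ => ∑ b : A, (((χ ^ a) b : ℂˣ) : ℂ).re * reg n (zmap (act F b) y) σ) =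
          ∑ b : A, (((χ ^ a) b : ℂˣ) : ℂ).re • reg n (zmap (act F b) y) := by
        funext σ
        simp
      rw [e]
      exact Submodule.sum_mem _ fun b _ => Submodule.smul_mem _ _ fun σ => reg_conj n hn _ σ
    · have h1 := congrArg Complex.re (hzero2 w)
      simpa using h1
  have him : (fun σ : F →+* ℂ => ∑ b : A, (((χ ^ a) b : ℂˣ) : ℂ).im * reg n (zmap (act F b) y) σ) = 0 := by
    refine W_inj hn ?_ (zero_mem _) fun w => ?_
    · have e : (fun σ : F →+* ℂ => ∑ b : A, (((χ ^ a) b : ℂˣ) : ℂ).im * reg n (zmap (act F b) y) σ) =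
          ∑ b : A, (((χ ^ a) b : ℂˣ) : ℂ).im • reg n (zmap (act F b) y) := by
        funext σ
        simp
      rw [e]
      exact Submodule.sum_mem _ fun b _ => Submodule.smul_mem _ _ fun σ => reg_conj n hn _ σ
    · have h1 := congrArg Complex.im (hzero2 w)
      simpa using h1
  unfold R
  apply Complex.ext
  · have := congrFun hre σ₀
    simpa using this
  · have := congrFun him σ₀
    simpa using this

omit hsur [NumberField F] in
/-- real parts of complex combinations of regulators -/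
theorem re_mem {n : ℕ} {u : (F →+* ℂ) → ℂ}
    (hu : u ∈ Submodule.span ℂ {f : (F →+* ℂ) → ℂ | ∃ y ∈ kerDelta n F, f = fun σ => (reg n y σ : ℂ)}) :
    (fun σ => (u σ).re) ∈ RegSpan n F := by
  rw [Submodule.mem_span_set'] at hu
  obtain ⟨N, c, Y, rfl⟩ := hu
  have hY2 : ∀ j, ∃ y ∈ kerDelta n F, (Y j : (F →+* ℂ) → ℂ) = fun σ => (reg n y σ : ℂ) := fun j => (Y j).2
  choose y hyk hyr using hY2
  have e : (fun σ : F →+* ℂ => ((∑ j, c j • (Y j : (F →+* ℂ) → ℂ)) σ).re) =
      ∑ j, (c j).re • reg n (y j) := by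
    funext σ
    rw [Finset.sum_apply, Finset.sum_apply, Complex.re_sum]
    refine Finset.sum_congr rfl fun j _ => ?_
    rw [Pi.smul_apply, hyr j, smul_eq_mul, Complex.re_mul_ofReal, Pi.smul_apply, smul_eq_mul]
  rw [e]
  exact Submodule.sum_mem _ fun j _ => Submodule.smul_mem _ _ (Submodule.subset_span ⟨y j, hyk j, rfl⟩)

/-- **the criterion** -/
theorem zagier_iff_characters {n : ℕ} (hn : 1 ≤ n) (hB : BorelDeJeu n F)
    (hinj : ∀ (σ₀ : F →+* ℂ) (a b : A), σ₀.comp (act F a) = σ₀.comp (act F b) → a = b)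
    {σ₀ : F →+* ℂ} {c : A} (hc : ComplexEmbedding.conjugate σ₀ = σ₀.comp (act F c)) :
    Zagier n F ↔ ∀ χ : A →* ℂˣ, (χ c : ℂ) = (-1) ^ (n - 1) → ∃ y ∈ kerDelta n F, R n σ₀ y χ ≠ 0 := by
  classical
  rw [zagier_iff hn hB]
  constructor
  · intro hW χ hχ
    by_contra hcon
    push Not at hcon
    -- the functional
    let Φ : ((F →+* ℂ) → ℝ) →ₗ[ℝ] ℂ :=
      { toFun := fun f => ∑ a : A, (χ a : ℂ) * (f (σ₀.comp (act F a)) : ℂ)
        map_add' := by
          intro f g
          simp [mul_add, Finset.sum_add_distrib]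
        map_smul' := by
          intro r f
          simp only [Pi.smul_apply, smul_eq_mul, Complex.ofReal_mul, RingHom.id_apply, Complex.real_smul,
            Finset.mul_sum]
          refine Finset.sum_congr rfl fun a _ => ?_
          ring }
    have hΦ : RegSpan n F ≤ LinearMap.ker Φ := by
      unfold RegSpan
      rw [Submodule.span_le]
      rintro _ ⟨y, hy, rfl⟩
      have h1 := hcon y hy
      unfold R at h1
      simp only [reg_zmap] at h1
      exact h1
    have hcc : (χ c : ℂ) * (-1) ^ (n - 1) = 1 := by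
      rw [hχ, ← mul_pow]
      simp
    have hodd : Odd n ∨ ¬ComplexEmbedding.IsReal σ₀ := by
      by_contra hcon2
      push Not at hcon2
      have hev : Odd (n - 1) := by
        have h0 : Even n := Nat.not_odd_iff_even.1 hcon2.1
        obtain ⟨k, hk⟩ := h0
        exact ⟨k - 1, by omega⟩
      have hcr : ComplexEmbedding.conjugate σ₀ = σ₀ := hcon2.2
      have h1 : c = 1 := by
        refine hinj σ₀ c 1 ?_
        rw [← hc, hcr, act_one]
      rw [h1, map_one, Units.val_one, hev.neg_one_pow] at hχ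
      norm_num at hχ
    have hf : f0 n σ₀ ∈ RegSpan n F := by
      rw [hW]
      exact f0_mem hodd
    have h0 : Φ (f0 n σ₀) = 0 := hΦ hf
    have h1 : Φ (f0 n σ₀) = ∑ a : A, (χ a : ℂ) * (f0 n σ₀ (σ₀.comp (act F a)) : ℂ) := rfl
    rw [h1] at h0
    have hval : ∀ a : A, f0 n σ₀ (σ₀.comp (act F a)) =
        if a = 1 then 1 else if a = c then (-1) ^ (n - 1) else 0 := by
      intro a
      unfold f0
      have e1 : (σ₀.comp (act F a) = σ₀) ↔ a = 1 := by
        constructor
        · intro h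
          exact hinj σ₀ a 1 (by rw [h, act_one])
        · rintro rfl
          exact act_one σ₀
      have e2 : (σ₀.comp (act F a) = ComplexEmbedding.conjugate σ₀) ↔ a = c := by
        rw [hc]
        exact ⟨fun h => hinj σ₀ a c h, fun h => by rw [h]⟩
      simp only [e1, e2]
    simp only [hval] at h0
    by_cases hc1 : c = 1
    · have e : ∀ a : A, (χ a : ℂ) * ((if a = 1 then (1 : ℝ) else if a = c then (-1) ^ (n - 1) else 0 : ℝ) : ℂ) =
          if a = 1 then 1 else 0 := by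
        intro a
        by_cases h2 : a = 1
        · simp [h2]
        · simp [h2, hc1]
      simp only [e] at h0
      simp at h0
    · have e : ∀ a : A, (χ a : ℂ) * ((if a = 1 then (1 : ℝ) else if a = c then (-1) ^ (n - 1) else 0 : ℝ) : ℂ) =
          (if a = 1 then 1 else 0) + if a = c then 1 else 0 := by
        intro a
        by_cases h2 : a = 1
        · have h3 : a ≠ c := fun h => hc1 (h ▸ h2)
          simp [h2, Ne.symm hc1]
        · by_cases h3 : a = c
          · subst h3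
            simp only [if_neg h2, if_true, zero_add]
            push_cast
            exact hcc
          · simp [h2, h3]
      simp only [e] at h0
      rw [Finset.sum_add_distrib] at h0
      simp at h0
  · intro h
    refine le_antisymm (regSpan_le n hn) fun f hf => ?_
    -- the bijection of `A` with the embeddings
    have hbij : Function.Bijective fun a : A => σ₀.comp (act F a) :=
      ⟨fun a b hab => hinj σ₀ a b hab, fun σ => hsur σ₀ σ⟩
    let e : A ≃ (F →+* ℂ) := Equiv.ofBijective _ hbij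
    have he : ∀ a : A, e a = σ₀.comp (act F a) := fun a => rfl
    let U : Submodule ℂ ((F →+* ℂ) → ℂ) :=
      Submodule.span ℂ {f : (F →+* ℂ) → ℂ | ∃ y ∈ kerDelta n F, f = fun σ => (reg n y σ : ℂ)}
    let φ : (A →* ℂˣ) → ((F →+* ℂ) → ℂ) := fun χ σ => ((χ (e.symm σ) : ℂ))⁻¹
    have hφ : ∀ χ : A →* ℂˣ, (χ c : ℂ) = (-1) ^ (n - 1) → φ χ ∈ U := by
      intro χ hχ
      obtain ⟨y, hy, hR⟩ := h χ hχ
      have e1 : φ χ = (R n σ₀ y χ)⁻¹ • ∑ a : A, (χ a : ℂ) • (fun σ : F →+* ℂ => (reg n (zmap (act F a) y) σ : ℂ)) := by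
        funext σ
        obtain ⟨g, rfl⟩ := e.surjective σ
        simp only [φ, Equiv.symm_apply_apply, Pi.smul_apply, Finset.sum_apply, smul_eq_mul]
        rw [he, R_shift]
        field_simp
      rw [e1]
      refine Submodule.smul_mem _ _ (Submodule.sum_mem _ fun a _ => Submodule.smul_mem _ _ ?_)
      exact Submodule.subset_span ⟨_, kerDelta_map n (act F a) hy, rfl⟩
    let c0 : (A →* ℂˣ) → ℂ := fun χ => ∑ a : A, (χ a : ℂ) * (f (σ₀.comp (act F a)) : ℂ)
    have hc0 : ∀ χ : A →* ℂˣ, (χ c : ℂ) ≠ (-1) ^ (n - 1) → c0 χ = 0 := by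
      intro χ hχ
      have h1 : c0 χ = (χ c : ℂ) * (-1) ^ (n - 1) * c0 χ := by
        have h2 : ∀ a : A, (f (σ₀.comp (act F (c * a))) : ℂ) = (-1) ^ (n - 1) * (f (σ₀.comp (act F a)) : ℂ) := by
          intro a
          have h3 : σ₀.comp (act F (c * a)) = ComplexEmbedding.conjugate (σ₀.comp (act F a)) := by
            rw [← act_mul, ← hc]
            rfl
          rw [h3, hf]
          push_cast
          ring
        change (∑ a : A, (χ a : ℂ) * (f (σ₀.comp (act F a)) : ℂ)) = _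
        rw [← Fintype.sum_equiv (Equiv.mulLeft c) (fun a => (χ (c * a) : ℂ) * (f (σ₀.comp (act F (c * a))) : ℂ))
          _ fun a => rfl]
        change _ = _ * ∑ a : A, (χ a : ℂ) * (f (σ₀.comp (act F a)) : ℂ)
        rw [Finset.mul_sum]
        refine Finset.sum_congr rfl fun a _ => ?_
        rw [h2, map_mul, Units.val_mul]
        ring
      by_contra h0
      apply hχ
      have h2 : (χ c : ℂ) * (-1) ^ (n - 1) = 1 := by
        have := h1
        have h3 : ((χ c : ℂ) * (-1) ^ (n - 1) - 1) * c0 χ = 0 := by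
          rw [sub_mul, one_mul, ← h1, sub_self]
        rcases mul_eq_zero.1 h3 with h4 | h4
        · exact sub_eq_zero.1 h4
        · exact absurd h4 h0
      have h3 : ((-1 : ℂ) ^ (n - 1)) * (-1) ^ (n - 1) = 1 := by
        rw [← mul_pow]
        simp
      calc (χ c : ℂ) = (χ c : ℂ) * ((-1) ^ (n - 1) * (-1) ^ (n - 1)) := by rw [h3, mul_one]
        _ = (-1) ^ (n - 1) := by rw [← mul_assoc, h2, one_mul]
    have hN : (Fintype.card (A →* ℂˣ) : ℂ) ≠ 0 := by
      have : 0 < Fintype.card (A →* ℂˣ) := Fintype.card_pos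
      exact_mod_cast this.ne'
    have hfU : (fun σ : F →+* ℂ => (f σ : ℂ)) ∈ U := by
      have e1 : (fun σ : F →+* ℂ => (f σ : ℂ)) =
          (Fintype.card (A →* ℂˣ) : ℂ)⁻¹ • ∑ χ : A →* ℂˣ, c0 χ • φ χ := by
        funext σ
        obtain ⟨g, rfl⟩ := e.surjective σ
        have h1 := inversion (fun a : A => (f (σ₀.comp (act F a)) : ℂ)) g
        simp only [Pi.smul_apply, Finset.sum_apply, smul_eq_mul, φ, Equiv.symm_apply_apply]
        rw [h1, he]
        field_simp
      rw [e1]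
      refine Submodule.smul_mem _ _ (Submodule.sum_mem _ fun χ _ => ?_)
      by_cases hχ : (χ c : ℂ) = (-1) ^ (n - 1)
      · exact Submodule.smul_mem _ _ (hφ χ hχ)
      · rw [hc0 χ hχ, zero_smul]
        exact zero_mem _
    have := re_mem hfU
    simpa using this

end

end Pool.Agent.X156.ZG
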