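import Mathlib

/-!
# The groups `B_n(F)`, the maps `δ_n` and single valued polylogarithms
-/

set_option autoImplicit false

namespace Pool.Agent.X156.ZG

open scoped TensorProduct

/-- `P¹(F)`; `none` is the point `∞` -/
abbrev P1 (F : Type) : Type := Option F

/-- `ℤ[P¹_F]` -/
abbrev ZP (F : Type) : Type := P1 F →₀ ℤ

/-- the generator `{x}` -/
noncomputable abbrev pt {F : Type} (x : P1 F) : ZP F := Finsupp.single x 1

/-- the homomorphism `ℤ[X] → M`, `{x} ↦ f x` -/
noncomputable def lin {X M : Type} [AddCommGroup M] (f : X → M) : (X →₀ ℤ) →+ M :=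
  Finsupp.liftAddHom fun x => zmultiplesHom M (f x)

theorem lin_single {X M : Type} [AddCommGroup M] (f : X → M) (x : X) (c : ℤ) :
    lin f (Finsupp.single x c) = c • f x := by
  simp [lin]

/-! ### tensor products and exterior squares of abelian groups -/

/-- `A ⊗ B` -/
noncomputable def Ten (A B : Type) [AddCommGroup A] [AddCommGroup B] : Type := A ⊗[ℤ] B

noncomputable instance {A B : Type} [AddCommGroup A] [AddCommGroup B] : AddCommGroup (Ten A B) :=
  @TensorProduct.addCommGroup ℤ _ A B _ _ _ _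

/-- `a ⊗ b` -/
noncomputable def ten {A B : Type} [AddCommGroup A] [AddCommGroup B] (a : A) (b : B) : Ten A B := a ⊗ₜ[ℤ] b

/-- the subgroup of `A ⊗ A` generated by the elements `a ⊗ a` -/
noncomputable def diag (A : Type) [AddCommGroup A] : AddSubgroup (Ten A A) := AddSubgroup.closure (Set.range fun a : A => ten a a)

/-- `Λ² A = (A ⊗ A) / ⟨a ⊗ a⟩` -/
noncomputable def Wed (A : Type) [AddCommGroup A] : Type := Ten A A ⧸ diag A

noncomputable instance {A : Type} [AddCommGroup A] : AddCommGroup (Wed A) :=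
  QuotientAddGroup.Quotient.addCommGroup (diag A)

/-- `a ∧ b` -/
noncomputable def wed {A : Type} [AddCommGroup A] (a b : A) : Wed A := QuotientAddGroup.mk (ten a b)

/-- `ℤ[P¹_F] / R` -/
noncomputable def Quo {F : Type} (R : AddSubgroup (ZP F)) : Type := ZP F ⧸ R

noncomputable instance {F : Type} (R : AddSubgroup (ZP F)) : AddCommGroup (Quo R) :=
  QuotientAddGroup.Quotient.addCommGroup R

/-- the class of `x` -/
noncomputable def cls {F : Type} (R : AddSubgroup (ZP F)) (x : ZP F) : Quo R := QuotientAddGroup.mk x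

/-! ### the maps `δ_n` -/

section

variable (F : Type) [Field F]

open Classical in
/-- `(1 - x) ∧ x` for `x ≠ 0, 1, ∞`; `0` for `x = 0, 1, ∞` -/
noncomputable def wedge : P1 F → Wed (Additive Fˣ)
  | none => 0
  | some x => if h : x ≠ 0 ∧ 1 - x ≠ 0 then
      wed (Additive.ofMul (Units.mk0 (1 - x) h.2)) (Additive.ofMul (Units.mk0 x h.1)) else 0

/-- `δ_2 : ℤ[P¹_F] → Λ² F^*` -/
noncomputable def delta2 : ZP F →+ Wed (Additive Fˣ) :=
  lin (wedge F)

open Classical in
/-- `{x} ⊗ x ∈ (ℤ[P¹_F] / R) ⊗ F^*` for `x ≠ 0, ∞`; `0` for `x = 0, ∞` -/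
noncomputable def tens (R : AddSubgroup (ZP F)) : P1 F → Ten (Quo R) (Additive Fˣ)
  | none => 0
  | some x => if h : x ≠ 0 then ten (cls R (pt (some x))) (Additive.ofMul (Units.mk0 x h)) else 0

/-- `δ : ℤ[P¹_F] → (ℤ[P¹_F] / R) ⊗ F^*`, `{x} ↦ {x} ⊗ x` -/
noncomputable def delta (R : AddSubgroup (ZP F)) : ZP F →+ Ten (Quo R) (Additive Fˣ) :=
  lin (tens F R)

end

open Classical in
/-- the value `f(t₀) ∈ P¹(F)` of `f ∈ P¹(F(t))` -/
noncomputable def spec {F : Type} [Field F] (t₀ : F) : P1 (RatFunc F) → P1 F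
  | none => none
  | some f => if f.denom.eval t₀ = 0 then none else some (f.num.eval t₀ / f.denom.eval t₀)

/-- `α ↦ α(t₀)` -/
noncomputable def specZ {F : Type} [Field F] (t₀ : F) : ZP (RatFunc F) →+ ZP F :=
  Finsupp.mapDomain.addMonoidHom (spec t₀)

/-- the group generated by `{0}`, `{∞}` and all `α(0) - α(1)`, `α ∈ K` -/
noncomputable def relOf {F : Type} [Field F] (K : AddSubgroup (ZP (RatFunc F))) : AddSubgroup (ZP F) :=
  AddSubgroup.closure ({pt (some 0), pt none} ∪ {z | ∃ α ∈ K, z = specZ 0 α - specZ 1 α})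

/-- the kernel of `δ_{m+2}` in `ℤ[P¹_F]`: `δ_2` is `{x} ↦ (1 - x) ∧ x`, and `δ_{m+3}` is `{x} ↦ {x} ⊗ x` with values in
`B_{m+2}(F) ⊗ F^*`, `B_{m+2}(F) = ℤ[P¹_F] / R_{m+2}(F)`, where `R_{m+2}(F)` is generated by `{0}`, `{∞}` and all
`α(0) - α(1)`, `α ∈ ker δ_{m+2} ⊂ ℤ[P¹_{F(t)}]` -/
noncomputable def kerD (m : ℕ) : (F : Type) → [Field F] → AddSubgroup (ZP F) :=
  Nat.rec (motive := fun _ => (F : Type) → [Field F] → AddSubgroup (ZP F))
    (fun F _ => (delta2 F).ker) (fun _ K F _ => (delta F (relOf (K (RatFunc F)))).ker) m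

/-- the kernel of `δ_n` in `ℤ[P¹_F]`, for `n ≥ 2` -/
noncomputable def kerDelta (n : ℕ) (F : Type) [Field F] : AddSubgroup (ZP F) := kerD (n - 2) F

/-! ### functoriality -/

/-- the map `ℤ[P¹_F] → ℤ[P¹_{F'}]` -/
noncomputable def zmap {F F' : Type} [Field F] [Field F'] (φ : F →+* F') : ZP F →+ ZP F' :=
  Finsupp.mapDomain.addMonoidHom (Option.map φ)

section

variable {F F' : Type} [Field F] [Field F'] (φ : F →+* F')

theorem zmap_single (x : P1 F) (c : ℤ) :
    zmap φ (Finsupp.single x c) = Finsupp.single (Option.map φ x) c := by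
  simp [zmap]

theorem zmap_pt (x : P1 F) : zmap φ (pt x) = pt (Option.map φ x) := zmap_single φ x 1

/-- the map on units -/
noncomputable def umap : Additive Fˣ →+ Additive F'ˣ := MonoidHom.toAdditive (Units.map (φ : F →* F'))

theorem umap_mk0 {x : F} (hx : x ≠ 0) (hx' : φ x ≠ 0) :
    umap φ (Additive.ofMul (Units.mk0 x hx)) = Additive.ofMul (Units.mk0 (φ x) hx') := by
  have : Units.map (φ : F →* F') (Units.mk0 x hx) = Units.mk0 (φ x) hx' := by
    ext
    rfl
  rw [← this]
  rfl

/-- functoriality of `⊗` -/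
noncomputable def Ten.map {A B A' B' : Type} [AddCommGroup A] [AddCommGroup B] [AddCommGroup A']
    [AddCommGroup B'] (f : A →+ A') (g : B →+ B') : Ten A B →+ Ten A' B' :=
  (TensorProduct.map f.toIntLinearMap g.toIntLinearMap).toAddMonoidHom

theorem Ten.map_ten {A B A' B' : Type} [AddCommGroup A] [AddCommGroup B] [AddCommGroup A']
    [AddCommGroup B'] (f : A →+ A') (g : B →+ B') (a : A) (b : B) :
    Ten.map f g (ten a b) = ten (f a) (g b) :=
  TensorProduct.map_tmul _ _ _ _

/-- functoriality of `Λ²` -/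
noncomputable def Wed.map {A A' : Type} [AddCommGroup A] [AddCommGroup A'] (f : A →+ A') : Wed A →+ Wed A' :=
  QuotientAddGroup.map (diag A) (diag A') (Ten.map f f) (by
    unfold diag
    rw [AddSubgroup.closure_le]
    rintro _ ⟨a, rfl⟩
    rw [SetLike.mem_coe, AddSubgroup.mem_comap, Ten.map_ten]
    exact AddSubgroup.subset_closure ⟨f a, rfl⟩)

theorem Wed.map_wed {A A' : Type} [AddCommGroup A] [AddCommGroup A'] (f : A →+ A') (a b : A) :
    Wed.map f (wed a b) = wed (f a) (f b) := by
  unfold wed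
  rw [← Ten.map_ten f f a b]
  rfl

theorem wedge_map (x : P1 F) : Wed.map (umap φ) (wedge F x) = wedge F' (Option.map φ x) := by
  cases x with
  | none => simp [wedge]
  | some x =>
    simp only [Option.map_some, wedge]
    by_cases h : x ≠ 0 ∧ 1 - x ≠ 0
    · have h' : φ x ≠ 0 ∧ 1 - φ x ≠ 0 := by
        refine ⟨(map_ne_zero φ).2 h.1, ?_⟩
        have := (map_ne_zero φ).2 h.2
        simpa using this
      have h2 : φ (1 - x) ≠ 0 := (map_ne_zero φ).2 h.2
      rw [dif_pos h, dif_pos h', Wed.map_wed, umap_mk0 φ h.2 h2, umap_mk0 φ h.1 h'.1]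
      congr 3
      simp
    · have h' : ¬(φ x ≠ 0 ∧ 1 - φ x ≠ 0) := by
        rintro ⟨h1, h2⟩
        refine h ⟨(map_ne_zero φ).1 h1, ?_⟩
        intro h3
        apply h2
        rw [← map_one φ, ← map_sub, h3, map_zero]
      rw [dif_neg h, dif_neg h', map_zero]

theorem delta2_map (z : ZP F) : delta2 F' (zmap φ z) = Wed.map (umap φ) (delta2 F z) := by
  have : (delta2 F').comp (zmap φ) = (Wed.map (umap φ)).comp (delta2 F) := by
    refine Finsupp.addHom_ext fun x c => ?_
    simp only [AddMonoidHom.comp_apply, zmap_single, delta2, lin_single, map_zsmul, wedge_map]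
  exact DFunLike.congr_fun this z

/-- the map of quotients -/
noncomputable def Quo.map {R : AddSubgroup (ZP F)} {R' : AddSubgroup (ZP F')} (h : R ≤ R'.comap (zmap φ)) :
    Quo R →+ Quo R' := QuotientAddGroup.map R R' (zmap φ) h

theorem tens_map {R : AddSubgroup (ZP F)} {R' : AddSubgroup (ZP F')} (h : R ≤ R'.comap (zmap φ)) (x : P1 F) :
    Ten.map (Quo.map φ h) (umap φ) (tens F R x) = tens F' R' (Option.map φ x) := by
  cases x with
  | none => simp [tens]
  | some x =>
    simp only [Option.map_some, tens]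
    by_cases hx : x ≠ 0
    · have hx' : φ x ≠ 0 := (map_ne_zero φ).2 hx
      rw [dif_pos hx, dif_pos hx', Ten.map_ten, umap_mk0 φ hx hx']
      congr 1
      have : Quo.map φ h (cls R (pt (some x))) = cls R' (zmap φ (pt (some x))) := rfl
      rw [this, zmap_pt]
      rfl
    · have hx' : ¬(φ x ≠ 0) := fun h1 => hx ((map_ne_zero φ).1 h1)
      rw [dif_neg hx, dif_neg hx', map_zero]

theorem delta_map {R : AddSubgroup (ZP F)} {R' : AddSubgroup (ZP F')} (h : R ≤ R'.comap (zmap φ)) (z : ZP F) :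
    delta F' R' (zmap φ z) = Ten.map (Quo.map φ h) (umap φ) (delta F R z) := by
  have : (delta F' R').comp (zmap φ) = (Ten.map (Quo.map φ h) (umap φ)).comp (delta F R) := by
    refine Finsupp.addHom_ext fun x c => ?_
    simp only [AddMonoidHom.comp_apply, zmap_single, delta, lin_single, map_zsmul, tens_map φ h]
  exact DFunLike.congr_fun this z

/-- the map `F(t) → F'(t)` -/
noncomputable def tmap : RatFunc F →+* RatFunc F' :=
  RatFunc.mapRingHom (Polynomial.mapRingHom φ)
    (nonZeroDivisors_le_comap_nonZeroDivisors_of_injective _ (Polynomial.map_injective φ φ.injective))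

theorem tmap_num_denom (f : RatFunc F) :
    (tmap φ f).num = f.num.map φ ∧ (tmap φ f).denom = f.denom.map φ := by
  classical
  have e : tmap φ f = algebraMap _ _ (f.num.map φ) / algebraMap _ _ (f.denom.map φ) := by
    conv_lhs => rw [← RatFunc.num_div_denom f]
    unfold tmap
    rw [RatFunc.coe_mapRingHom_eq_coe_map, RatFunc.map_apply_div]
    rfl
  have hd0 : f.denom.map φ ≠ 0 := (Polynomial.map_ne_zero_iff φ.injective).2 f.denom_ne_zero
  have hm : (f.denom.map φ).Monic := f.monic_denom.map φ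
  have hc : IsCoprime (f.num.map φ) (f.denom.map φ) := by
    have := f.isCoprime_num_denom.map (Polynomial.mapRingHom φ)
    simpa using this
  have hg : gcd (f.num.map φ) (f.denom.map φ) = 1 := by
    have h1 : IsUnit (gcd (f.num.map φ) (f.denom.map φ)) := (gcd_isUnit_iff _ _).2 hc
    have h2 := normalize_gcd (f.num.map φ) (f.denom.map φ)
    rw [← h2]
    exact normalize_eq_one.2 h1
  constructor
  · rw [e, RatFunc.num_div, hg]
    simp [hm.leadingCoeff]
  · rw [e, RatFunc.denom_div _ hd0, hg]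
    simp [hm.leadingCoeff]

theorem spec_map (t₀ : F) (f : P1 (RatFunc F)) :
    spec (φ t₀) (Option.map (tmap φ) f) = Option.map φ (spec t₀ f) := by
  cases f with
  | none => rfl
  | some f =>
    simp only [Option.map_some, spec]
    obtain ⟨h1, h2⟩ := tmap_num_denom φ f
    rw [h1, h2]
    have hev : ∀ p : Polynomial F, (p.map φ).eval (φ t₀) = φ (p.eval t₀) := fun p => by
      rw [Polynomial.eval_map, Polynomial.eval₂_at_apply]
    by_cases h : f.denom.eval t₀ = 0
    · rw [if_pos h, if_pos (by rw [hev, h, map_zero])]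
      rfl
    · rw [if_neg h, if_neg (by rwa [hev, map_eq_zero]), hev, hev, Option.map_some, map_div₀]

theorem specZ_map (t₀ : F) (α : ZP (RatFunc F)) :
    specZ (φ t₀) (zmap (tmap φ) α) = zmap φ (specZ t₀ α) := by
  unfold specZ zmap
  simp only [Finsupp.mapDomain.addMonoidHom_apply]
  rw [← Finsupp.mapDomain_comp, ← Finsupp.mapDomain_comp]
  congr 1
  funext f
  exact spec_map φ t₀ f

theorem relOf_map {K : AddSubgroup (ZP (RatFunc F))} {K' : AddSubgroup (ZP (RatFunc F'))}
    (h : K ≤ K'.comap (zmap (tmap φ))) : relOf K ≤ (relOf K').comap (zmap φ) := by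
  unfold relOf
  rw [AddSubgroup.closure_le]
  rintro z (hz | ⟨α, hα, rfl⟩)
  · rcases hz with rfl | rfl
    · rw [SetLike.mem_coe, AddSubgroup.mem_comap, zmap_pt]
      refine AddSubgroup.subset_closure (Or.inl (Or.inl ?_))
      simp
    · rw [SetLike.mem_coe, AddSubgroup.mem_comap, zmap_pt]
      exact AddSubgroup.subset_closure (Or.inl (Or.inr rfl))
  · rw [SetLike.mem_coe, AddSubgroup.mem_comap, map_sub]
    refine AddSubgroup.subset_closure (Or.inr ⟨zmap (tmap φ) α, h hα, ?_⟩)
    have h0 := specZ_map φ 0 α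
    have h1 := specZ_map φ 1 α
    rw [map_zero] at h0
    rw [map_one] at h1
    rw [h0, h1]

end

theorem kerD_map (m : ℕ) : ∀ {F F' : Type} [Field F] [Field F'] (φ : F →+* F'),
    kerD m F ≤ (kerD m F').comap (zmap φ) := by
  induction m with
  | zero =>
    intro F F' _ _ φ z hz
    have h1 : delta2 F z = 0 := hz
    change delta2 F' (zmap φ z) = 0
    rw [delta2_map, h1, map_zero]
  | succ m ih =>
    intro F F' _ _ φ z hz
    have h2 := relOf_map φ (ih (tmap φ))
    have h1 : delta F (relOf (kerD m (RatFunc F))) z = 0 := hz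
    change delta F' (relOf (kerD m (RatFunc F'))) (zmap φ z) = 0
    rw [delta_map φ h2, h1, map_zero]

/-- **functoriality of `ker δ_n`** -/
theorem kerDelta_map (n : ℕ) {F F' : Type} [Field F] [Field F'] (φ : F →+* F') :
    kerDelta n F ≤ (kerDelta n F').comap (zmap φ) := kerD_map (n - 2) φ

end Pool.Agent.X156.ZG
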