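import Pool.Agent.X156.ZG.Pol

/-!
# One element generates
-/

set_option autoImplicit false

namespace Pool.Agent.X156.ZG

open NumberField

section

variable {F : Type} [Field F]

theorem lin_apply {X M : Type} [AddCommGroup M] (f : X → M) (z : X →₀ ℤ) :
    lin f z = z.sum fun x c => c • f x := by
  unfold lin
  rw [Finsupp.liftAddHom_apply]
  rfl

theorem reg_eq_lin (n : ℕ) (y : ZP F) (σ : F →+* ℂ) :
    reg n y σ = lin (fun x => polylog n (Option.map σ x)) y := by
  rw [reg_eq, lin_apply]
  refine Finsupp.sum_congr fun x _ => ?_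
  rw [zsmul_eq_mul]

theorem reg_sum {N : ℕ} (n : ℕ) (x : Fin N → ℤ) (y : Fin N → ZP F) (σ : F →+* ℂ) :
    reg n (∑ j, x j • y j) σ = ∑ j, (x j : ℝ) * reg n (y j) σ := by
  simp only [reg_eq_lin, map_sum, map_zsmul, zsmul_eq_mul]

variable [NumberField F]

open Classical in
/-- rationality from a nonzero determinant -/
theorem rat_of_det {n : ℕ} (hB : BorelDeJeu n F) (y : J n F → ZP F) (hyk : ∀ i, y i ∈ kerDelta n F)
    (hdet : (Matrix.of fun i w : J n F => reg n (y i) w.1.embedding).det ≠ 0) :
    ∃ q : ℚ, q ≠ 0 ∧ dedekindZeta F n =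
      ((q * (fac n F * (Matrix.of fun i w : J n F => reg n (y i) w.1.embedding).det) : ℝ) : ℂ) := by
  obtain ⟨v, hv, ⟨q, hq, e⟩, hrat⟩ := hB
  set M : Matrix (J n F) (J n F) ℝ := Matrix.of fun i w : J n F => reg n (y i) w.1.embedding with hM
  have hc : ∀ i, ∃ c : J n F → ℚ, ∀ w : J n F, reg n (y i) w.1.embedding = ∑ j, (c j : ℝ) * v j w :=
    fun i => hrat (y i) (hyk i)
  choose C hC using hc
  have hMC : M = (Matrix.of C).map (fun x : ℚ => (x : ℝ)) * Matrix.of v := by
    ext i w
    rw [Matrix.mul_apply]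
    exact hC i w
  have hdC : M.det = ((Matrix.of C).det : ℝ) * (Matrix.of v).det := by
    rw [hMC, Matrix.det_mul]
    congr 1
    exact ((Rat.castHom ℝ).map_det (Matrix.of C)).symm
  have hC0 : (Matrix.of C).det ≠ 0 := by
    intro h0
    apply hdet
    rw [hdC, h0]
    simp
  refine ⟨q / (Matrix.of C).det, div_ne_zero hq hC0, ?_⟩
  rw [e, hdC]
  congr 1
  have h5 : (((Matrix.of C).det : ℚ) : ℝ) ≠ 0 := Rat.cast_ne_zero.2 hC0
  rw [Rat.cast_div]
  field_simp

/-- a system of automorphisms which carry the embeddings `w.embedding` to `σ₀` -/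
def Adapted (n : ℕ) (F : Type) [Field F] [NumberField F] (σ₀ : F →+* ℂ) (g : J n F → (F ≃+* F)) : Prop :=
  ∀ w : J n F, w.1.embedding.comp (g w : F →+* F) = σ₀

theorem exists_adapted (n : ℕ) [IsGalois ℚ F] (σ₀ : F →+* ℂ) : ∃ g : J n F → (F ≃+* F), Adapted n F σ₀ g := by
  have h : ∀ w : J n F, ∃ g : F ≃+* F, w.1.embedding.comp (g : F →+* F) = σ₀ := by
    intro w
    obtain ⟨s, hs⟩ := ComplexEmbedding.exists_comp_symm_eq_of_comp_eq (k := ℚ) w.1.embedding σ₀
      (Subsingleton.elim _ _)
    refine ⟨s.symm.toRingEquiv, ?_⟩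
    rw [← hs]
    rfl
  choose g hg using h
  exact ⟨g, hg⟩

open Classical in
/-- the function supported on `σ₀` and its conjugate -/
noncomputable def f0 (n : ℕ) (σ₀ σ : F →+* ℂ) : ℝ :=
  if σ = σ₀ then 1 else if σ = ComplexEmbedding.conjugate σ₀ then (-1) ^ (n - 1) else 0

omit [NumberField F] in
theorem conj_conj (σ : F →+* ℂ) : ComplexEmbedding.conjugate (ComplexEmbedding.conjugate σ) = σ := by
  simp

omit [NumberField F] in
theorem f0_mem {n : ℕ} {σ₀ : F →+* ℂ} (h : Odd n ∨ ¬ComplexEmbedding.IsReal σ₀) : f0 n σ₀ ∈ W n F := by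
  classical
  have hodd : Odd n → ((-1 : ℝ)) ^ (n - 1) = 1 := by
    rintro ⟨k, hk⟩
    have : Even (n - 1) := ⟨k, by omega⟩
    exact this.neg_one_pow
  intro σ
  unfold f0
  by_cases h1 : σ = σ₀
  · subst h1
    have e1 : (if σ = σ then (1 : ℝ) else if σ = ComplexEmbedding.conjugate σ then (-1) ^ (n - 1) else 0) = 1 :=
      if_pos rfl
    rw [e1, mul_one]
    by_cases h2 : ComplexEmbedding.conjugate σ = σ
    · rw [if_pos h2]
      rcases h with h | h
      · exact (hodd h).symm
      · exact absurd h2 h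
    · rw [if_neg h2, if_pos rfl]
  · rw [if_neg h1]
    by_cases h2 : σ = ComplexEmbedding.conjugate σ₀
    · subst h2
      rw [conj_conj, if_pos rfl, if_pos rfl, ← mul_pow]
      simp
    · rw [if_neg h2, mul_zero, if_neg, if_neg]
      · intro h3
        apply h1
        rw [← conj_conj σ, h3, conj_conj]
      · intro h3
        apply h2
        rw [← conj_conj σ, h3]

open Classical in
/-- **one element generates** -/
theorem one_element {n : ℕ} (hn : 1 ≤ n) (hB : BorelDeJeu n F) {σ₀ : F →+* ℂ} {g : J n F → (F ≃+* F)}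
    (hg : Adapted n F σ₀ g) (hZ : Zagier n F) : ∃ y ∈ kerDelta n F,
      (Matrix.of fun i w : J n F => reg n (zmap (g i : F →+* F) y) w.1.embedding).det ≠ 0 := by
  rcases isEmpty_or_nonempty (J n F) with hE | ⟨⟨w₀⟩⟩
  · refine ⟨0, zero_mem _, ?_⟩
    rw [Matrix.det_isEmpty]
    exact one_ne_zero
  -- the function `f0` lies in `W`
  have hreal : Odd n ∨ ¬ComplexEmbedding.IsReal σ₀ := by
    rcases w₀.2 with h | h
    · exact Or.inl h
    · right
      intro hr
      rw [← hg w₀, ComplexEmbedding.isReal_comp_iff] at hr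
      exact InfinitePlace.isComplex_iff.1 h hr
  have hf0 := f0_mem hreal
  rw [← (zagier_iff hn hB).1 hZ] at hf0
  unfold RegSpan at hf0
  rw [Submodule.mem_span_set'] at hf0
  obtain ⟨N, c, Y, hY⟩ := hf0
  have hY2 : ∀ j, ∃ y ∈ kerDelta n F, (Y j : (F →+* ℂ) → ℝ) = reg n y := fun j => (Y j).2
  choose y hyk hyr using hY2
  -- cancel an automorphism
  have hcancel : ∀ (i : J n F) (a b : F →+* ℂ), a.comp (g i : F →+* F) = b.comp (g i : F →+* F) → a = b := by
    intro i a b h
    ext x
    obtain ⟨z, rfl⟩ := (g i).surjective x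
    exact RingHom.congr_fun h z
  have hf0M : (Matrix.of fun i w : J n F => f0 n σ₀ (w.1.embedding.comp (g i : F →+* F))) = 1 := by
    ext i w
    rw [Matrix.of_apply, Matrix.one_apply]
    by_cases h : i = w
    · subst h
      rw [if_pos rfl, hg i]
      simp [f0]
    · rw [if_neg h]
      unfold f0
      rw [if_neg, if_neg]
      · intro h2
        apply h
        rw [← hg i] at h2
        have h3 : w.1.embedding.comp (g i : F →+* F) =
            (ComplexEmbedding.conjugate i.1.embedding).comp (g i : F →+* F) := h2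
        have h4 := hcancel i _ _ h3
        apply Subtype.ext
        rw [← InfinitePlace.mk_embedding i.1, ← InfinitePlace.mk_embedding w.1, h4,
          InfinitePlace.mk_conjugate_eq]
      · intro h2
        apply h
        rw [← hg i] at h2
        have h4 := hcancel i _ _ h2
        apply Subtype.ext
        rw [← InfinitePlace.mk_embedding i.1, ← InfinitePlace.mk_embedding w.1, h4]
  -- the polynomial
  let P : MvPolynomial (Fin N) ℝ := (Matrix.of fun i w : J n F =>
    ∑ j, MvPolynomial.C (reg n (y j) (w.1.embedding.comp (g i : F →+* F))) * MvPolynomial.X j).det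
  have hP : ∀ x : Fin N → ℝ, MvPolynomial.eval x P =
      (Matrix.of fun i w : J n F => ∑ j, reg n (y j) (w.1.embedding.comp (g i : F →+* F)) * x j).det := by
    intro x
    change MvPolynomial.eval x (Matrix.det _) = _
    rw [RingHom.map_det]
    congr 1
    ext i w
    simp [RingHom.mapMatrix_apply, Matrix.map_apply]
  have hPc : MvPolynomial.eval c P = 1 := by
    rw [hP c]
    have : (Matrix.of fun i w : J n F => ∑ j, reg n (y j) (w.1.embedding.comp (g i : F →+* F)) * c j) =
        (Matrix.of fun i w : J n F => f0 n σ₀ (w.1.embedding.comp (g i : F →+* F))) := by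
      ext i w
      rw [Matrix.of_apply, Matrix.of_apply, ← hY]
      rw [Finset.sum_apply]
      refine Finset.sum_congr rfl fun j _ => ?_
      rw [Pi.smul_apply, hyr j, smul_eq_mul, mul_comm]
    rw [this, hf0M, Matrix.det_one]
  have hx : ∃ x : Fin N → ℤ, MvPolynomial.eval (fun j => (x j : ℝ)) P ≠ 0 := by
    by_contra hcon
    push Not at hcon
    have h0 : P = 0 := by
      refine MvPolynomial.funext_set (fun _ => Set.range (Int.cast : ℤ → ℝ))
        (fun _ => Set.infinite_range_of_injective Int.cast_injective) fun x hx => ?_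
      have h1 : ∀ j, ∃ m : ℤ, (m : ℝ) = x j := fun j => hx j (Set.mem_univ j)
      choose m hm using h1
      have h2 := hcon m
      simp only [hm] at h2
      rw [h2, map_zero]
    rw [h0, map_zero] at hPc
    exact zero_ne_one hPc
  obtain ⟨x, hx⟩ := hx
  refine ⟨∑ j, x j • y j, sum_mem fun j _ => zsmul_mem (hyk j) _, ?_⟩
  rw [hP] at hx
  convert hx using 3
  funext i w
  rw [reg_zmap, reg_sum]
  exact Finset.sum_congr rfl fun j _ => mul_comm _ _

end

end Pool.Agent.X156.ZG
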