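import Pool.Agent.X156.ZG.Def

/-!
# Single valued polylogarithms, regulators and Zagier's conjecture
-/

set_option autoImplicit false

namespace Pool.Agent.X156.ZG

open NumberField

/-- `Li_m(z)`, `|z| ≤ 1` -/
noncomputable def Li (m : ℕ) (z : ℂ) : ℂ := ∑' j : ℕ, z ^ (j + 1) / ((j + 1 : ℕ) : ℂ) ^ m

/-- `∑_{k < n} β_k log^k |z| Li_{n-k}(z)`, where `2x / (e^{2x} - 1) = ∑ β_k x^k`, i.e. `β_k = 2^k B_k / k!` -/
noncomputable def polySum (n : ℕ) (z : ℂ) : ℂ :=
  ∑ k ∈ Finset.range n, (2 ^ k * (bernoulli k : ℂ) / (k.factorial : ℂ)) * (Real.log ‖z‖ : ℂ) ^ k * Li (n - k) z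

open Classical in
/-- the real part for odd `n`, the imaginary part for even `n` -/
noncomputable def part (n : ℕ) (w : ℂ) : ℝ := if Odd n then w.re else w.im

open Classical in
/-- the function `𝓛_n` on `P¹(ℂ)`: given by the series for `|z| ≤ 1`, and `𝓛_n(1/z) = (-1)^{n-1} 𝓛_n(z)` -/
noncomputable def polylog (n : ℕ) : P1 ℂ → ℝ
  | none => 0
  | some z => if ‖z‖ ≤ 1 then part n (polySum n z) else (-1) ^ (n - 1) * part n (polySum n z⁻¹)

/-- `𝓛̃_n(σ(y))` -/
noncomputable def reg (n : ℕ) {F : Type} [Field F] (y : ZP F) (σ : F →+* ℂ) : ℝ :=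
  (zmap σ y).sum fun x c => c * polylog n x

/-- the places `σ_1, …, σ_{d_n}`: all the infinite places for odd `n`, the complex ones for even `n` -/
abbrev J (n : ℕ) (F : Type) [Field F] : Type := {w : InfinitePlace F // Odd n ∨ w.IsComplex}

noncomputable instance (n : ℕ) (F : Type) [Field F] [NumberField F] : Fintype (J n F) := by
  classical
  exact Subtype.fintype _

/-- the factor `π^{n d_{n-1}} |d_F|^{-1/2}` -/
noncomputable def fac (n : ℕ) (F : Type) [Field F] [NumberField F] : ℝ :=
  Real.pi ^ (n * Fintype.card (J (n - 1) F)) * (Real.sqrt |(discr F : ℝ)|)⁻¹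

open Classical in
/-- **Zagier's conjecture** for `n` and `F`: for some `y_i ∈ ker δ_n`, `ζ_F(n)` is a nonzero rational multiple of
`π^{n d_{n-1}} d_F^{-1/2} det(𝓛̃_n(σ_j(y_i)))` -/
def Zagier (n : ℕ) (F : Type) [Field F] [NumberField F] : Prop :=
  ∃ y : J n F → ZP F, (∀ i, y i ∈ kerDelta n F) ∧ ∃ q : ℚ, q ≠ 0 ∧
    dedekindZeta F n = ((q * (fac n F * (Matrix.of fun i w : J n F => reg n (y i) w.1.embedding).det) : ℝ) : ℂ)

open Classical in
/-- **the theorem of Borel, and Beilinson, Deligne and de Jeu** for `n` and `F` -/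
def BorelDeJeu (n : ℕ) (F : Type) [Field F] [NumberField F] : Prop :=
  ∃ v : J n F → (J n F → ℝ), (Matrix.of v).det ≠ 0 ∧
    (∃ q : ℚ, q ≠ 0 ∧ dedekindZeta F n = ((q * (fac n F * (Matrix.of v).det) : ℝ) : ℂ)) ∧
    ∀ y ∈ kerDelta n F, ∃ c : J n F → ℚ, ∀ w : J n F, reg n y w.1.embedding = ∑ i, (c i : ℝ) * v i w

/-! ### parity -/

theorem Li_conj (m : ℕ) (z : ℂ) : Li m (starRingEnd ℂ z) = starRingEnd ℂ (Li m z) := by
  unfold Li
  rw [Complex.conj_tsum]
  refine tsum_congr fun j => ?_
  simp

theorem polySum_conj (n : ℕ) (z : ℂ) : polySum n (starRingEnd ℂ z) = starRingEnd ℂ (polySum n z) := by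
  unfold polySum
  rw [map_sum]
  refine Finset.sum_congr rfl fun k _ => ?_
  rw [Li_conj]
  simp only [map_mul, map_div₀, map_pow, map_natCast, Complex.conj_ofReal, RCLike.norm_conj, map_ratCast,
    map_ofNat]

theorem part_conj (n : ℕ) (hn : 1 ≤ n) (w : ℂ) : part n (starRingEnd ℂ w) = (-1) ^ (n - 1) * part n w := by
  unfold part
  by_cases h : Odd n
  · have h1 : Even (n - 1) := by
      obtain ⟨k, hk⟩ := h
      exact ⟨k, by omega⟩
    rw [if_pos h, if_pos h, h1.neg_one_pow]
    simp
  · have h1 : Odd (n - 1) := by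
      rw [Nat.not_odd_iff_even] at h
      obtain ⟨k, hk⟩ := h
      exact ⟨k - 1, by omega⟩
    rw [if_neg h, if_neg h, h1.neg_one_pow]
    simp

theorem polylog_conj (n : ℕ) (hn : 1 ≤ n) (x : P1 ℂ) :
    polylog n (Option.map (starRingEnd ℂ) x) = (-1) ^ (n - 1) * polylog n x := by
  cases x with
  | none => simp [polylog]
  | some z =>
    simp only [Option.map_some, polylog]
    rw [RCLike.norm_conj]
    by_cases h : ‖z‖ ≤ 1
    · rw [if_pos h, if_pos h, polySum_conj, part_conj n hn]
    · rw [if_neg h, if_neg h, ← map_inv₀, polySum_conj, part_conj n hn]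

section

variable {F : Type} [Field F]

theorem reg_eq (n : ℕ) (y : ZP F) (σ : F →+* ℂ) :
    reg n y σ = y.sum fun x c => c * polylog n (Option.map σ x) := by
  unfold reg zmap
  rw [Finsupp.mapDomain.addMonoidHom_apply, Finsupp.sum_mapDomain_index]
  · intro x
    simp
  · intro x a b
    push_cast
    ring

theorem reg_conj (n : ℕ) (hn : 1 ≤ n) (y : ZP F) (σ : F →+* ℂ) :
    reg n y (ComplexEmbedding.conjugate σ) = (-1) ^ (n - 1) * reg n y σ := by
  rw [reg_eq, reg_eq, Finsupp.mul_sum]
  refine Finsupp.sum_congr fun x _ => ?_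
  have : Option.map (ComplexEmbedding.conjugate σ) x = Option.map (starRingEnd ℂ) (Option.map σ x) := by
    rw [Option.map_map]
    rfl
  rw [this, polylog_conj n hn]
  ring

theorem reg_zmap (n : ℕ) {k : Type} [Field k] (φ : k →+* F) (y : ZP k) (σ : F →+* ℂ) :
    reg n (zmap φ y) σ = reg n y (σ.comp φ) := by
  rw [reg_eq, reg_eq]
  unfold zmap
  rw [Finsupp.mapDomain.addMonoidHom_apply, Finsupp.sum_mapDomain_index]
  · refine Finsupp.sum_congr fun x _ => ?_
    rw [Option.map_map]
    rfl
  · intro x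
    simp
  · intro x a b
    push_cast
    ring

/-- functions of parity `n` on the embeddings -/
def W (n : ℕ) (F : Type) [Field F] : Submodule ℝ ((F →+* ℂ) → ℝ) where
  carrier := {f | ∀ σ, f (ComplexEmbedding.conjugate σ) = (-1) ^ (n - 1) * f σ}
  add_mem' := by
    intro f g hf hg σ
    simp only [Pi.add_apply]
    rw [hf σ, hg σ]
    ring
  zero_mem' := by
    intro σ
    simp
  smul_mem' := by
    intro c f hf σ
    simp only [Pi.smul_apply, smul_eq_mul]
    rw [hf σ]
    ring

/-- the span of the regulators -/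
def RegSpan (n : ℕ) (F : Type) [Field F] : Submodule ℝ ((F →+* ℂ) → ℝ) :=
  Submodule.span ℝ {f | ∃ y ∈ kerDelta n F, f = reg n y}

variable [NumberField F]

omit [NumberField F] in
theorem W_inj {n : ℕ} (hn : 1 ≤ n) {f g : (F →+* ℂ) → ℝ} (hf : f ∈ W n F) (hg : g ∈ W n F)
    (h : ∀ w : J n F, f w.1.embedding = g w.1.embedding) : f = g := by
  funext σ
  set w := InfinitePlace.mk σ with hw
  by_cases hJ : Odd n ∨ w.IsComplex
  · have h1 : f (InfinitePlace.mk σ).embedding = g (InfinitePlace.mk σ).embedding := h ⟨w, hJ⟩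
    rcases InfinitePlace.embedding_mk_eq σ with h2 | h2
    · rwa [h2] at h1
    · rw [h2, hf σ, hg σ] at h1
      have h3 : ((-1 : ℝ)) ^ (n - 1) ≠ 0 := pow_ne_zero _ (by norm_num)
      exact mul_left_cancel₀ h3 h1
  · push Not at hJ
    have hreal : ComplexEmbedding.IsReal σ := by
      rw [← InfinitePlace.isReal_mk_iff]
      exact InfinitePlace.not_isComplex_iff_isReal.1 hJ.2
    have hev : Odd (n - 1) := by
      have h0 : Even n := Nat.not_odd_iff_even.1 hJ.1
      obtain ⟨k, hk⟩ := h0
      exact ⟨k - 1, by omega⟩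
    have h1 : ComplexEmbedding.conjugate σ = σ := hreal
    have e1 := hf σ
    have e2 := hg σ
    rw [h1, hev.neg_one_pow] at e1 e2
    linarith

open Classical in
omit [NumberField F] in
theorem W_surj {n : ℕ} (hn : 1 ≤ n) (g : J n F → ℝ) : ∃ f ∈ W n F, ∀ w : J n F, f w.1.embedding = g w := by
  refine ⟨fun σ => if hJ : Odd n ∨ (InfinitePlace.mk σ).IsComplex then
    (if (InfinitePlace.mk σ).embedding = σ then g ⟨InfinitePlace.mk σ, hJ⟩ else
      (-1) ^ (n - 1) * g ⟨InfinitePlace.mk σ, hJ⟩) else 0, ?_, ?_⟩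
  · intro σ
    have hmk : InfinitePlace.mk (ComplexEmbedding.conjugate σ) = InfinitePlace.mk σ :=
      InfinitePlace.mk_conjugate_eq σ
    simp only [hmk]
    by_cases hJ : Odd n ∨ (InfinitePlace.mk σ).IsComplex
    · rw [dif_pos hJ, dif_pos hJ]
      rcases InfinitePlace.embedding_mk_eq σ with h2 | h2
      · rw [h2, if_pos rfl]
        by_cases hc : σ = ComplexEmbedding.conjugate σ
        · -- real
          rw [if_pos hc]
          have hreal : (InfinitePlace.mk σ).IsReal := by
            rw [InfinitePlace.isReal_mk_iff]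
            exact hc.symm
          have hodd : Odd n := by
            rcases hJ with h | h
            · exact h
            · exact absurd h (InfinitePlace.not_isComplex_iff_isReal.2 hreal)
          have : Even (n - 1) := by
            obtain ⟨k, hk⟩ := hodd
            exact ⟨k, by omega⟩
          rw [this.neg_one_pow, one_mul]
        · rw [if_neg hc]
      · rw [h2, if_pos rfl]
        by_cases hc : ComplexEmbedding.conjugate σ = σ
        · rw [if_pos hc]
          have hreal : (InfinitePlace.mk σ).IsReal := by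
            rw [InfinitePlace.isReal_mk_iff]
            exact hc
          have hodd : Odd n := by
            rcases hJ with h | h
            · exact h
            · exact absurd h (InfinitePlace.not_isComplex_iff_isReal.2 hreal)
          have : Even (n - 1) := by
            obtain ⟨k, hk⟩ := hodd
            exact ⟨k, by omega⟩
          rw [this.neg_one_pow, one_mul]
        · rw [if_neg hc, ← mul_assoc, ← mul_pow]
          simp
    · rw [dif_neg hJ, dif_neg hJ, mul_zero]
  · intro w
    have hmk : InfinitePlace.mk w.1.embedding = w.1 := InfinitePlace.mk_embedding w.1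
    simp only [hmk]
    rw [dif_pos w.2]
    simp

omit [NumberField F] in
theorem regSpan_le (n : ℕ) (hn : 1 ≤ n) : RegSpan n F ≤ W n F := by
  unfold RegSpan
  rw [Submodule.span_le]
  rintro f ⟨y, _, rfl⟩
  exact fun σ => reg_conj n hn y σ

/-- **Zagier's conjecture implies that the regulators span** -/
theorem Zagier.span {n : ℕ} (hn : 1 ≤ n) (h : Zagier n F) (hz : dedekindZeta F n ≠ 0) :
    RegSpan n F = W n F := by
  classical
  refine le_antisymm (regSpan_le n hn) fun f hf => ?_
  obtain ⟨y, hy, q, hq, e⟩ := h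
  set M : Matrix (J n F) (J n F) ℝ := Matrix.of fun i w : J n F => reg n (y i) w.1.embedding with hM
  have hdet : M.det ≠ 0 := by
    intro h0
    apply hz
    rw [e, h0]
    simp
  have hu : IsUnit M.det := isUnit_iff_ne_zero.2 hdet
  set c : J n F → ℝ := Matrix.vecMul (fun w : J n F => f w.1.embedding) M⁻¹ with hc
  have hcM : Matrix.vecMul c M = fun w : J n F => f w.1.embedding := by
    rw [hc, Matrix.vecMul_vecMul, Matrix.nonsing_inv_mul _ hu, Matrix.vecMul_one]
  have hmem : (∑ i, c i • reg n (y i)) ∈ RegSpan n F :=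
    Submodule.sum_mem _ fun i _ => Submodule.smul_mem _ _ (Submodule.subset_span ⟨y i, hy i, rfl⟩)
  have : f = ∑ i, c i • reg n (y i) := by
    refine W_inj hn hf (regSpan_le n hn hmem) fun w => ?_
    have h1 := congrFun hcM w
    rw [← h1]
    simp only [Matrix.vecMul, dotProduct, Finset.sum_apply, Pi.smul_apply, smul_eq_mul]
    rfl
  rw [this]
  exact hmem

/-- **the regulators span, hence Zagier's conjecture** -/
theorem zagier_of_span {n : ℕ} (hn : 1 ≤ n) (hB : BorelDeJeu n F) (h : W n F ≤ RegSpan n F) :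
    Zagier n F := by
  classical
  obtain ⟨v, hv, ⟨q, hq, e⟩, hrat⟩ := hB
  -- restrict to the places
  let res : ((F →+* ℂ) → ℝ) →ₗ[ℝ] (J n F → ℝ) := LinearMap.funLeft ℝ ℝ fun w : J n F => w.1.embedding
  let S : Set (J n F → ℝ) := {f | ∃ y ∈ kerDelta n F, f = res (reg n y)}
  have hS : Submodule.span ℝ S = ⊤ := by
    rw [eq_top_iff]
    intro g _
    obtain ⟨f, hf, hfg⟩ := W_surj hn g
    have h1 : res f ∈ (RegSpan n F).map res := Submodule.mem_map_of_mem (h hf)
    have h2 : (RegSpan n F).map res ≤ Submodule.span ℝ S := by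
      unfold RegSpan
      rw [Submodule.map_span, Submodule.span_le]
      rintro _ ⟨_, ⟨y, hy, rfl⟩, rfl⟩
      exact Submodule.subset_span ⟨y, hy, rfl⟩
    have h3 : res f = g := by
      funext w
      exact hfg w
    rw [← h3]
    exact h2 h1
  obtain ⟨b, hbS, hbspan, hbli⟩ := exists_linearIndependent ℝ S
  have hbtop : ⊤ ≤ Submodule.span ℝ (Set.range (Subtype.val : b → (J n F → ℝ))) := by
    rw [Subtype.range_coe, hbspan, hS]
  let B : Module.Basis b ℝ (J n F → ℝ) := Module.Basis.mk hbli hbtop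
  have hfin : Fintype b := Module.Basis.fintypeIndexOfRankLtAleph0 B (by simp)
  have hcard : Fintype.card (J n F) = Fintype.card b := by
    have h1 := Module.finrank_eq_card_basis B
    rw [Module.finrank_fintype_fun_eq_card] at h1
    exact h1
  let ε : J n F ≃ b := Fintype.equivOfCardEq hcard
  have hy : ∀ i : J n F, ∃ y ∈ kerDelta n F, (ε i : J n F → ℝ) = res (reg n y) := fun i => hbS (ε i).2
  choose y hyk hyr using hy
  set M : Matrix (J n F) (J n F) ℝ := Matrix.of fun i w : J n F => reg n (y i) w.1.embedding with hM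
  have hrow : M.row = fun i => (ε i : J n F → ℝ) := by
    funext i
    rw [hyr i]
    rfl
  have hli : LinearIndependent ℝ M.row := by
    rw [hrow]
    exact hbli.comp ε ε.injective
  have hdet : M.det ≠ 0 := by
    have := Matrix.linearIndependent_rows_iff_isUnit.1 hli
    rw [Matrix.isUnit_iff_isUnit_det] at this
    exact this.ne_zero
  -- rationality
  have hc : ∀ i, ∃ c : J n F → ℚ, ∀ w : J n F, reg n (y i) w.1.embedding = ∑ j, (c j : ℝ) * v j w :=
    fun i => hrat (y i) (hyk i)
  choose C hC using hc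
  have hMC : M = (Matrix.of C).map (fun x : ℚ => (x : ℝ)) * Matrix.of v := by
    ext i w
    rw [Matrix.mul_apply]
    exact hC i w
  have hdC : M.det = ((Matrix.of C).det : ℝ) * (Matrix.of v).det := by
    rw [hMC, Matrix.det_mul]
    congr 1
    exact ((Rat.castHom ℝ).map_det (Matrix.of C)).symm
  have hC0 : (Matrix.of C).det ≠ 0 := by
    intro h0
    apply hdet
    rw [hdC, h0]
    simp
  refine ⟨y, hyk, q / (Matrix.of C).det, div_ne_zero hq hC0, ?_⟩
  rw [e, ← hM, hdC]
  congr 1
  have h5 : (((Matrix.of C).det : ℚ) : ℝ) ≠ 0 := Rat.cast_ne_zero.2 hC0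
  rw [Rat.cast_div]
  field_simp

theorem BorelDeJeu.zeta_ne_zero {n : ℕ} (hB : BorelDeJeu n F) : dedekindZeta F n ≠ 0 := by
  classical
  obtain ⟨v, hv, ⟨q, hq, e⟩, -⟩ := hB
  rw [e]
  have h1 : fac n F ≠ 0 := by
    unfold fac
    have h2 : (0 : ℝ) < |(discr F : ℝ)| := abs_pos.2 (by exact_mod_cast discr_ne_zero F)
    have h3 : 0 < Real.sqrt |(discr F : ℝ)| := Real.sqrt_pos.2 h2
    have := Real.pi_pos
    positivity
  have h4 : (q : ℝ) ≠ 0 := by exact_mod_cast hq
  exact_mod_cast mul_ne_zero h4 (mul_ne_zero h1 hv)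

/-- Zagier's conjecture in terms of the span of the regulators -/
theorem zagier_iff {n : ℕ} (hn : 1 ≤ n) (hB : BorelDeJeu n F) : Zagier n F ↔ RegSpan n F = W n F :=
  ⟨fun h => h.span hn hB.zeta_ne_zero, fun h => zagier_of_span hn hB h.ge⟩

end

end Pool.Agent.X156.ZG
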