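import Pool.Agent.X156.ZG.Char

/-!
# Fields of prime degree
-/

set_option autoImplicit false

namespace Pool.Agent.X156.ZG

open NumberField

section

variable {F : Type} [Field F]

theorem ten_zero {A B : Type} [AddCommGroup A] [AddCommGroup B] (a : A) : ten a (0 : B) = 0 :=
  TensorProduct.tmul_zero _ _

/-- `{1}` lies in the kernel of `δ_n` -/
theorem one_mem_kerDelta {n : ℕ} (hn : 3 ≤ n) : pt (some (1 : F)) ∈ kerDelta n F := by
  obtain ⟨m, rfl⟩ : ∃ m, n = m + 3 := ⟨n - 3, by omega⟩
  have e : m + 3 - 2 = m + 1 := by omega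
  unfold kerDelta
  rw [e]
  change delta F (relOf (kerD m (RatFunc F))) (pt (some (1 : F))) = 0
  unfold delta
  rw [lin_single, one_smul]
  simp only [tens]
  rw [dif_pos one_ne_zero]
  have h : Additive.ofMul (Units.mk0 (1 : F) one_ne_zero) = 0 := by
    rw [Units.mk0_one]
    rfl
  rw [h, ten_zero]

theorem polySum_one {n : ℕ} (hn : 1 ≤ n) : polySum n 1 = Li n 1 := by
  unfold polySum
  rw [Finset.sum_eq_single 0]
  · simp
  · intro k _ hk
    simp [hk]
  · intro h
    exact absurd (Finset.mem_range.2 hn) h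

theorem Li_one_pos {n : ℕ} (hn : 2 ≤ n) : 0 < (Li n 1).re := by
  have e : ∀ j : ℕ, (1 : ℂ) ^ (j + 1) / ((j + 1 : ℕ) : ℂ) ^ n = ((1 / ((j + 1 : ℕ) : ℝ) ^ n : ℝ) : ℂ) := by
    intro j
    push_cast
    simp
  have hs : Summable fun j : ℕ => (1 / ((j + 1 : ℕ) : ℝ) ^ n : ℝ) :=
    (summable_nat_add_iff 1).2 (Real.summable_one_div_nat_pow.2 (by omega))
  unfold Li
  simp only [e]
  rw [← Complex.ofReal_tsum, Complex.ofReal_re]
  exact hs.tsum_pos (fun j => by positivity) 0 (by positivity)

theorem reg_one_pos {n : ℕ} (hn : 2 ≤ n) (hodd : Odd n) (σ : F →+* ℂ) : 0 < reg n (pt (some (1 : F))) σ := by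
  rw [reg_eq_lin, lin_single, one_smul]
  simp only [Option.map_some, map_one, polylog]
  rw [if_pos (by simp), polySum_one (by omega)]
  unfold part
  rw [if_pos hodd]
  exact Li_one_pos hn

variable [NumberField F] {A : Type} [CommGroup A] [Fintype A] [MulSemiringAction A F]

/-- **fields of prime degree** -/
theorem zagier_prime {n : ℕ} (hn : 3 ≤ n) (hodd : Odd n) (hB : BorelDeJeu n F)
    (hsur : ∀ σ₀ σ : F →+* ℂ, ∃ a : A, σ₀.comp (act F a) = σ)
    (hinj : ∀ (σ₀ : F →+* ℂ) (a b : A), σ₀.comp (act F a) = σ₀.comp (act F b) → a = b)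
    {σ₀ : F →+* ℂ} (hreal : ComplexEmbedding.IsReal σ₀) (hprime : (Nat.card A).Prime) :
    Zagier n F ↔ ∃ y ∈ kerDelta n F, ∃ σ σ' : F →+* ℂ, reg n y σ ≠ reg n y σ' := by
  classical
  have hn1 : 1 ≤ n := by omega
  have hc : ComplexEmbedding.conjugate σ₀ = σ₀.comp (act F (1 : A)) := by
    rw [act_one]
    exact hreal
  have hev : (-1 : ℂ) ^ (n - 1) = 1 := by
    obtain ⟨k, hk⟩ := hodd
    have : Even (n - 1) := ⟨k, by omega⟩
    exact this.neg_one_pow
  rw [zagier_iff_characters hsur hn1 hB hinj hc]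
  have := Fact.mk hprime
  have hcard : Nat.card (A →* ℂˣ) = Nat.card A := CommGroup.card_monoidHom_of_hasEnoughRootsOfUnity A ℂ
  constructor
  · intro h
    by_contra hcon
    push Not at hcon
    have hnt : Nontrivial (A →* ℂˣ) := by
      rw [← Finite.one_lt_card_iff_nontrivial, hcard]
      exact hprime.one_lt
    obtain ⟨χ, hχ⟩ := exists_ne (1 : A →* ℂˣ)
    obtain ⟨y, hy, hR⟩ := h χ (by rw [map_one, hev]; rfl)
    apply hR
    unfold R
    have e : ∀ a : A, (χ a : ℂ) * (reg n (zmap (act F a) y) σ₀ : ℂ) = (χ a : ℂ) * (reg n y σ₀ : ℂ) := by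
      intro a
      rw [reg_zmap, hcon y hy _ σ₀]
    simp only [e]
    rw [← Finset.sum_mul]
    have h1 : ∑ a : A, ((Units.coeHom ℂ).comp χ) a = 0 := sum_hom_units_eq_zero _ (by
      intro h2
      apply hχ
      ext a
      have := DFunLike.congr_fun h2 a
      simpa using this)
    have h2 : ∑ a : A, (χ a : ℂ) = 0 := h1
    rw [h2, zero_mul]
  · rintro ⟨y, hy, σ, σ', hne⟩ χ _
    by_cases hχ : χ = 1
    · subst hχ
      refine ⟨pt (some 1), one_mem_kerDelta hn, ?_⟩
      unfold R
      have e : ∀ a : A, (((1 : A →* ℂˣ) a : ℂˣ) : ℂ) * (reg n (zmap (act F a) (pt (some (1 : F)))) σ₀ : ℂ) =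
          (reg n (pt (some (1 : F))) σ₀ : ℂ) := by
        intro a
        rw [zmap_pt]
        simp
      simp only [e]
      rw [Finset.sum_const, nsmul_eq_mul]
      refine mul_ne_zero ?_ ?_
      · have : 0 < (Finset.univ : Finset A).card := Finset.card_pos.2 Finset.univ_nonempty
        exact_mod_cast this.ne'
      · exact_mod_cast (reg_one_pos (by omega) hodd σ₀).ne'
    · refine ⟨y, hy, fun hR => ?_⟩
      -- then all the nontrivial characters vanish
      have hall : ∀ ψ : A →* ℂˣ, ψ ≠ 1 → R n σ₀ y ψ = 0 := by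
        intro ψ hψ
        obtain ⟨a, ha⟩ := mem_powers_of_prime_card (G := A →* ℂˣ) hcard (g := χ) (g' := ψ) hχ
        have ha' : χ ^ a = ψ := ha
        rw [← ha']
        refine R_pow hsur hn1 hB hy σ₀ χ ?_ hR
        rw [← Nat.card_eq_fintype_card, Nat.coprime_comm]
        refine (Nat.Prime.coprime_iff_not_dvd hprime).2 fun hd => hψ ?_
        obtain ⟨b, hb⟩ := hd
        rw [← ha', hb]
        ext g
        have h3 : (χ g) ^ Nat.card A = 1 := by
          rw [← map_pow, pow_card_eq_one', map_one]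
        rw [MonoidHom.pow_apply, pow_mul, h3, one_pow]
        rfl
      -- so the regulator is constant
      have hconst : ∀ h : A, (Fintype.card (A →* ℂˣ) : ℂ) * (reg n y (σ₀.comp (act F h)) : ℂ) = R n σ₀ y (1 : A →* ℂˣ) := by
        intro h
        have h1 := inversion (fun a : A => (reg n (zmap (act F a) y) σ₀ : ℂ)) h
        rw [Finset.sum_eq_single (1 : A →* ℂˣ)] at h1
        · rw [reg_zmap] at h1
          rw [← h1]
          simp [R]
        · intro ψ _ hψ
          have h2 := hall ψ hψ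
          unfold R at h2
          rw [h2, zero_mul]
        · intro h0
          exact absurd (Finset.mem_univ _) h0
      apply hne
      obtain ⟨a, rfl⟩ := hsur σ₀ σ
      obtain ⟨b, rfl⟩ := hsur σ₀ σ'
      have h1 := (hconst a).trans (hconst b).symm
      have hN : (Fintype.card (A →* ℂˣ) : ℂ) ≠ 0 := by
        have : 0 < Fintype.card (A →* ℂˣ) := Fintype.card_pos
        exact_mod_cast this.ne'
      have h2 := mul_left_cancel₀ hN h1
      exact_mod_cast h2

end

end Pool.Agent.X156.ZG
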