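import Pool.Agent.X156.ZG.Avg

/-!
# Group theory and the reductions
-/

set_option autoImplicit false

namespace Pool.Agent.X156.ZG

open NumberField

/-! ### groups -/

/-- the kernel of `g ↦ g^n` -/
def tor (G : Type) [CommGroup G] (n : ℕ) : Subgroup G := (powMonoidHom n : G →* G).ker

theorem mem_tor {G : Type} [CommGroup G] {n : ℕ} {g : G} : g ∈ tor G n ↔ g ^ n = 1 := Iff.rfl

theorem card_tor_mul {G : Type} [CommGroup G] [Finite G] (m p : ℕ) :
    Nat.card (tor G (p * m)) ≤ Nat.card (tor G p) * Nat.card (tor G m) := by
  let f : tor G (p * m) →* G := (powMonoidHom m : G →* G).comp (tor G (p * m)).subtype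
  have h1 : Nat.card (tor G (p * m)) = Nat.card f.range * Nat.card f.ker := by
    have e := Subgroup.card_eq_card_quotient_mul_card_subgroup f.ker
    rw [e]
    congr 1
    exact Nat.card_congr (QuotientGroup.quotientKerEquivRange f).toEquiv
  rw [h1]
  refine Nat.mul_le_mul ?_ ?_
  · refine Subgroup.card_le_of_le ?_
    rintro _ ⟨x, rfl⟩
    change (x : G) ^ m ∈ tor G p
    have h2 : (x : G) ^ (p * m) = 1 := x.2
    rwa [mem_tor, ← pow_mul, Nat.mul_comm m p]
  · refine Nat.card_le_card_of_injective (fun x : f.ker => (⟨(x : tor G (p * m)), x.2⟩ : tor G m)) ?_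
    intro x y h
    have := congrArg (fun z : tor G m => (z : G)) h
    exact Subtype.ext (Subtype.ext this)

theorem card_tor_le {G : Type} [CommGroup G] [Finite G]
    (h : ∀ p : ℕ, p.Prime → Nat.card (tor G p) ≤ p) (n : ℕ) (hn : n ≠ 0) : Nat.card (tor G n) ≤ n := by
  induction n using induction_on_primes with
  | zero => exact absurd rfl hn
  | one =>
    have : tor G 1 = ⊥ := by
      ext g
      simp [mem_tor]
    rw [this]
    simp
  | prime_mul p a hp ih =>
    have ha : a ≠ 0 := by
      rintro rfl
      simp at hn
    exact (card_tor_mul a p).trans (Nat.mul_le_mul (h p hp) (ih ha))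

/-- a finite commutative group which is not cyclic has more than `p` elements with `g^p = 1` for some prime `p` -/
theorem exists_big_tor {G : Type} [CommGroup G] [Finite G] (h : ¬IsCyclic G) :
    ∃ p : ℕ, p.Prime ∧ p < Nat.card (tor G p) := by
  classical
  by_contra hcon
  push Not at hcon
  apply h
  have := Fintype.ofFinite G
  refine isCyclic_of_card_pow_eq_one_le fun n hn => ?_
  have h1 := card_tor_le (G := G) hcon n hn.ne'
  have h2 : Nat.card (tor G n) = (Finset.univ.filter fun a : G => a ^ n = 1).card := by
    rw [Nat.card_eq_fintype_card, Fintype.card_subtype]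
    congr 1
  rwa [h2] at h1

/-! ### fixed fields -/

section

variable {F : Type} [Field F] [NumberField F] {A : Type} [Group A] [MulSemiringAction A F]

theorem finrank_fixed_lt [Finite A] [FaithfulSMul A F] (P : Subgroup A) (hP : (Nat.card P).Prime) :
    Module.finrank ℚ (FixedPoints.subfield P F) < Module.finrank ℚ F := by
  classical
  have := Fintype.ofFinite P
  have hf : FaithfulSMul P F := inferInstance
  have h1 := FixedPoints.finrank_eq_card P F
  have h2 : Module.finrank ℚ (FixedPoints.subfield P F) * Module.finrank (FixedPoints.subfield P F) F =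
      Module.finrank ℚ F := Module.finrank_mul_finrank ℚ (FixedPoints.subfield P F) F
  rw [h1, ← Nat.card_eq_fintype_card] at h2
  have h3 : 0 < Module.finrank ℚ (FixedPoints.subfield P F) := Module.finrank_pos
  have h4 := hP.two_le
  nlinarith

end

/-- **Reduction of Zagier's conjecture for all number fields.** -/
theorem zagier_all {n : ℕ} (hn : 1 ≤ n) (hB : ∀ (K : Type) [Field K] [NumberField K], BorelDeJeu n K)
    (h : ∀ (K : Type) [Field K] [NumberField K],
      (∀ A : Subgroup (K ≃+* K), ∀ p q : ℕ, p.Prime → q.Prime → Nat.card A = p * q → IsCyclic A) → Zagier n K)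
    (F : Type) [Field F] [NumberField F] : Zagier n F := by
  classical
  induction hd : Module.finrank ℚ F using Nat.strong_induction_on generalizing F with
  | _ d ih =>
    by_cases hc : ∀ A : Subgroup (F ≃+* F), ∀ p q : ℕ, p.Prime → q.Prime → Nat.card A = p * q → IsCyclic A
    · exact h F hc
    · push Not at hc
      obtain ⟨A, p, q, hp, hq, hcard, hnc⟩ := hc
      have hfin : Finite A := by
        have : 0 < Nat.card A := by
          rw [hcard]
          exact Nat.mul_pos hp.pos hq.pos
        exact (Nat.card_pos_iff.1 this).2
      have := Fintype.ofFinite A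
      have hnt : Nontrivial A := by
        rw [← Finite.one_lt_card_iff_nontrivial, hcard]
        have := hp.two_le
        have := hq.two_le
        nlinarith
      refine zagier_reduction (A := A) hn ?_ ?_ hB fun P hP => ?_
      · rw [hcard]
        exact Nat.not_prime_mul hp.one_lt.ne' hq.one_lt.ne'
      · intro a ha
        have h1 : orderOf a ∣ p * q := hcard ▸ orderOf_dvd_natCard a
        have h2 : orderOf a ≠ 1 := fun h0 => ha (orderOf_eq_one_iff.1 h0)
        have h3 : orderOf a ≠ p * q := fun h0 => hnc (isCyclic_of_orderOf_eq_card a (by rw [h0, hcard]))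
        rcases (Nat.dvd_mul.1 h1) with ⟨x, y, hx, hy, hxy⟩
        rcases (Nat.dvd_prime hp).1 hx with rfl | rfl
        · rcases (Nat.dvd_prime hq).1 hy with rfl | rfl
          · exact absurd (by rw [← hxy]) h2
          · rw [← hxy, one_mul]
            exact hq
        · rcases (Nat.dvd_prime hq).1 hy with rfl | rfl
          · rw [← hxy, mul_one]
            exact hp
          · exact absurd hxy.symm h3
      · have hlt := finrank_fixed_lt (F := F) P hP
        rw [hd] at hlt
        exact ih _ hlt _ rfl

/-- **Cyclic extensions suffice for abelian extensions.** -/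
theorem zagier_abelian {n : ℕ} (hn : 1 ≤ n) (hB : ∀ (K : Type) [Field K] [NumberField K], BorelDeJeu n K)
    (k : Type) [Field k] [NumberField k]
    (h : ∀ (K : Type) [Field K] [NumberField K] [Algebra k K] [IsGalois k K], IsCyclic Gal(K/k) → Zagier n K)
    (F : Type) [Field F] [NumberField F] [Algebra k F] [IsAbelianGalois k F] : Zagier n F := by
  classical
  induction hd : Module.finrank ℚ F using Nat.strong_induction_on generalizing F with
  | _ d ih =>
    by_cases hc : IsCyclic Gal(F/k)
    · exact h F hc
    · let : CommGroup Gal(F/k) := { (inferInstance : Group Gal(F/k)) with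
        mul_comm := fun a b => (IsMulCommutative.is_comm (M := Gal(F/k))).comm a b }
      obtain ⟨p, hp, hbig⟩ := exists_big_tor (G := Gal(F/k)) hc
      let A : Subgroup Gal(F/k) := tor Gal(F/k) p
      have := Fintype.ofFinite A
      have hord : ∀ a : A, a ≠ 1 → orderOf a = p := by
        intro a ha
        have := Fact.mk hp
        refine orderOf_eq_prime ?_ ha
        exact Subtype.ext a.2
      have hnt : Nontrivial A := by
        rw [← Finite.one_lt_card_iff_nontrivial]
        exact hp.one_lt.trans hbig
      have hnp : ¬(Nat.card A).Prime := by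
        intro hpr
        obtain ⟨a, ha⟩ := exists_ne (1 : A)
        have h1 : orderOf a ∣ Nat.card A := orderOf_dvd_natCard a
        rw [hord a ha] at h1
        have h2 := (Nat.prime_dvd_prime_iff_eq hp hpr).1 h1
        have h3 : p < Nat.card A := hbig
        omega
      refine zagier_reduction (A := A) hn hnp (fun a ha => by rw [hord a ha]; exact hp) hB fun P hP => ?_
      have hlt := finrank_fixed_lt (F := F) P hP
      rw [hd] at hlt
      have hfix : ∀ x : k, algebraMap k F x ∈ (FixedPoints.subfield P F).toSubring := by
        intro x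
        change ∀ a : P, a • algebraMap k F x = algebraMap k F x
        exact fun a => AlgEquiv.commutes (a : A).1 x
      let : Algebra k (FixedPoints.subfield P F) :=
        ((algebraMap k F).codRestrict (FixedPoints.subfield P F).toSubring hfix).toAlgebra
      have : IsScalarTower k (FixedPoints.subfield P F) F := IsScalarTower.of_algebraMap_eq fun x => rfl
      have : IsAbelianGalois k (FixedPoints.subfield P F) := IsAbelianGalois.tower_bot k _ F
      exact ih _ hlt _ rfl

end Pool.Agent.X156.ZG
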